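import Pool.Agent.Lib.HB.FI
import Pool.Agent.Lib.ZB.A
import Pool.Agent.Lib.ZB.C
import Pool.Agent.Lib.ZB.T2

/-!
# HB / FB (180 lines): Heath-Brown's estimate for the zeta blocks

PROOF.  (As row F2 of ZB.)  `k = q - 1 ≥ 2`.  If `N^q < t` then `(t/N^q)^(1/(q(q-1))) ≥ 1` and the trivial bound `M - N ≤ N` is enough (`C ≥ 1`).  Let `t ≤ N^q`,
`H = ⌊N t^(-1/q)⌋₊ ≥ 1`, `H ≤ N` (`t ≥ N ≥ 1`): `t H^q ≤ N^q` and `N^q ≤ t (H+1)^q ≤ t (2H)^q`.  `f n = n^(-it)`, `‖f n‖ ≤ 1` (for `n = 0`: `0^(-it) = 0`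
because `t ≠ 0`).  `shiftAv`: `‖∑‖ ≤ (1/H) ∑_n ‖∑_{h<H} f(n+h)‖ + H`.  For `n ∈ (N, M]`: `t H^q ≤ n^q`, `blockT` with
`B = ∑_{r<H} lamC H r ‖∑_{h<H} e(ph k (cz t n) h) e(h r/H)‖` (`complH` with `a h = e(ph ..)`), so
`‖∑‖ ≤ (2/H) ∑_{r<H} lamC H r ∑_n ‖∑_{h<H} w_r h e(ph k (cz t n) h)‖ + H`, `w_r h = e(h r/H)`, and `firstH` (with `ε/2`) for every `r`, `lamC_sum`:
`≤ 2 (2 + log H) C N^(1+ε/2) (...) + H`; `2 + log H ≤ C N^(ε/2)`, `H ≤ N t^(-1/q) ≤ N t^(-2/(q^2(q-1)))` (`q (q-1) ≥ 2`, `t ≥ 1`).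
-/

set_option autoImplicit false

namespace Pool.Agent.Lib.HB

open Finset Pool.Agent.Lib.ZB

private theorem fb_norm {t : ℝ} (ht : 0 < t) (n : ℕ) : ‖(n : ℂ) ^ (-((t : ℂ) * Complex.I))‖ ≤ 1 := by
  rcases Nat.eq_zero_or_pos n with h | h
  · rw [h, Nat.cast_zero, Complex.zero_cpow, norm_zero]
    · exact zero_le_one
    · rw [neg_ne_zero]
      exact mul_ne_zero (Complex.ofReal_ne_zero.2 ht.ne') Complex.I_ne_zero
  · rw [Complex.norm_natCast_cpow_of_pos h]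
    simp

private theorem fb_triv {t : ℝ} (ht : 0 < t) {N M : ℕ} (hM : M ≤ 2 * N) :
    ‖∑ n ∈ Ioc N M, (n : ℂ) ^ (-((t : ℂ) * Complex.I))‖ ≤ N := by
  refine (norm_sum_le _ _).trans ((sum_le_sum fun n _ => fb_norm ht n).trans ?_)
  rw [sum_const, Nat.card_Ioc, nsmul_eq_mul, mul_one]
  exact_mod_cast (by omega : M - N ≤ N)

/-- the length `H` -/
private theorem fb_H {q N : ℕ} (hq : 3 ≤ q) (hN : 1 ≤ N) {t : ℝ} (ht : 1 ≤ t) (htN : t ≤ (N : ℝ) ^ q) :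
    ∃ H : ℕ, 1 ≤ H ∧ H ≤ N ∧ t * (H : ℝ) ^ q ≤ (N : ℝ) ^ q ∧ (N : ℝ) ^ q ≤ t * (2 * (H : ℝ)) ^ q ∧
      (H : ℝ) ≤ N * t ^ (-(2 / ((q : ℝ) ^ 2 * (q - 1)))) := by
  have ht0 : 0 < t := by linarith
  have hN1 : (1 : ℝ) ≤ N := by exact_mod_cast hN
  have hN0 : (0 : ℝ) < N := by linarith
  have hq0 : q ≠ 0 := by omega
  have hq3 : (3 : ℝ) ≤ q := by exact_mod_cast hq
  obtain ⟨x, hx⟩ : ∃ x : ℝ, x = N * t ^ (-(1 / (q : ℝ))) := ⟨_, rfl⟩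
  have hx0 : 0 < x := by
    rw [hx]
    positivity
  have hxq : x ^ q = (N : ℝ) ^ q / t := by
    rw [hx, mul_pow, ← Real.rpow_natCast (t ^ (-(1 / (q : ℝ)))) q, ← Real.rpow_mul ht0.le]
    have e1 : -(1 / (q : ℝ)) * q = -1 := by
      field_simp
    rw [e1, Real.rpow_neg_one, div_eq_mul_inv]
  have hx1 : 1 ≤ x := by
    by_contra h
    have h1 : x ^ q < 1 := pow_lt_one₀ hx0.le (not_le.1 h) hq0
    rw [hxq, div_lt_one ht0] at h1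
    linarith
  refine ⟨⌊x⌋₊, Nat.le_floor (by exact_mod_cast hx1), ?_, ?_, ?_, ?_⟩
  · refine Nat.floor_le_of_le ?_
    rw [hx]
    have : t ^ (-(1 / (q : ℝ))) ≤ 1 := Real.rpow_le_one_of_one_le_of_nonpos ht (by
      rw [neg_nonpos]
      positivity)
    exact mul_le_of_le_one_right hN0.le this
  · have h1 : ((⌊x⌋₊ : ℕ) : ℝ) ^ q ≤ x ^ q := pow_le_pow_left₀ (Nat.cast_nonneg _) (Nat.floor_le hx0.le) q
    rw [hxq, le_div_iff₀ ht0] at h1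
    linarith
  · have h2 : (1 : ℝ) ≤ (⌊x⌋₊ : ℕ) := by
      have : 1 ≤ ⌊x⌋₊ := Nat.le_floor (by exact_mod_cast hx1)
      exact_mod_cast this
    have h3 : x ≤ 2 * ((⌊x⌋₊ : ℕ) : ℝ) := by
      have := Nat.lt_floor_add_one x
      linarith
    have h1 : x ^ q ≤ (2 * ((⌊x⌋₊ : ℕ) : ℝ)) ^ q := pow_le_pow_left₀ hx0.le h3 q
    rw [hxq, div_le_iff₀ ht0] at h1
    linarith
  · refine (Nat.floor_le hx0.le).trans ?_
    rw [hx]
    refine mul_le_mul_of_nonneg_left (Real.rpow_le_rpow_of_exponent_le ht ?_) hN0.le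
    rw [neg_le_neg_iff]
    rw [div_le_div_iff₀ (by nlinarith [sq_nonneg (q : ℝ)]) (by linarith)]
    nlinarith [mul_nonneg (by linarith : (0 : ℝ) ≤ (q : ℝ)) (by linarith : (0 : ℝ) ≤ (q : ℝ) - 3)]

theorem hblk (hV : VMV) (q : ℕ) (hq : 3 ≤ q) {ε : ℝ} (hε : 0 < ε) : ∃ C : ℝ, 0 ≤ C ∧ ∀ (N M : ℕ), 1 ≤ N →
    N ≤ M → M ≤ 2 * N → ∀ t : ℝ, (N : ℝ) ≤ t →
    ‖∑ n ∈ Finset.Ioc N M, (n : ℂ) ^ (-((t : ℂ) * Complex.I))‖ ≤ C * (N : ℝ) ^ (1 + ε) *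
      ((t / (N : ℝ) ^ q) ^ (1 / ((q : ℝ) * (q - 1))) + (N : ℝ) ^ (-(1 / ((q : ℝ) * (q - 1)))) +
        t ^ (-(2 / ((q : ℝ) ^ 2 * (q - 1))))) := by
  have hq1 : (1 : ℝ) ≤ q - 1 := by
    have : (3 : ℝ) ≤ q := by exact_mod_cast hq
    linarith
  have hq0 : (0 : ℝ) < q := by linarith
  obtain ⟨k, rfl⟩ : ∃ k, q = k + 1 := ⟨q - 1, by omega⟩
  obtain ⟨C1, hC1, hfirst⟩ := firstH hV k (by omega) (ε := ε / 2) (by positivity)
  refine ⟨2 * (2 + 2 / ε) * C1 + 1, by positivity, ?_⟩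
  intro N M hN hNM hM t hNt
  have hN1 : (1 : ℝ) ≤ N := by exact_mod_cast hN
  have hN0 : (0 : ℝ) < N := by linarith
  have ht1 : 1 ≤ t := hN1.trans hNt
  have ht0 : 0 < t := by linarith
  have ek : ((k + 1 : ℕ) : ℝ) - 1 = k := by
    push_cast
    ring
  have ek' : ((k + 1 : ℕ) : ℝ) = (k : ℝ) + 1 := by push_cast; ring
  rw [ek]
  rw [ek] at hq1
  obtain ⟨S, hS⟩ : ∃ S : ℝ, S = (t / (N : ℝ) ^ (k + 1)) ^ (1 / (((k + 1 : ℕ) : ℝ) * k)) + (N : ℝ) ^ (-(1 / (((k + 1 : ℕ) : ℝ) * k))) +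
      t ^ (-(2 / (((k + 1 : ℕ) : ℝ) ^ 2 * k))) := ⟨_, rfl⟩
  rw [← hS]
  have hS0 : 0 ≤ S := by
    rw [hS]
    positivity
  have hNε : (1 : ℝ) ≤ (N : ℝ) ^ ε := Real.one_le_rpow hN1 hε.le
  have hN1ε : (N : ℝ) ^ (1 + ε) = N * (N : ℝ) ^ ε := by rw [Real.rpow_add hN0, Real.rpow_one]
  have hbig : ∀ x : ℝ, x ≤ S → 0 ≤ x → (N : ℝ) * x ≤ (N : ℝ) ^ (1 + ε) * S := by
    intro x hx hx0
    rw [hN1ε]
    calc (N : ℝ) * x ≤ N * S := mul_le_mul_of_nonneg_left hx hN0.le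
      _ ≤ N * ((N : ℝ) ^ ε * S) := by
          refine mul_le_mul_of_nonneg_left ?_ hN0.le
          exact le_mul_of_one_le_left hS0 hNε
      _ = _ := by ring
  have hpart : 0 ≤ 2 * (2 + 2 / ε) * C1 * ((N : ℝ) ^ (1 + ε) * S) := by positivity
  rcases lt_or_ge ((N : ℝ) ^ (k + 1)) t with hcase | hcase
  · -- trivial bound
    have h1 : 1 ≤ S := by
      have h2 : 1 ≤ (t / (N : ℝ) ^ (k + 1)) ^ (1 / (((k + 1 : ℕ) : ℝ) * k)) := by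
        refine Real.one_le_rpow ?_ (by positivity)
        rw [one_le_div (by positivity)]
        exact hcase.le
      have h3 : 0 ≤ (N : ℝ) ^ (-(1 / (((k + 1 : ℕ) : ℝ) * k))) := by positivity
      have h4 : 0 ≤ t ^ (-(2 / (((k + 1 : ℕ) : ℝ) ^ 2 * k))) := by positivity
      rw [hS]
      linarith
    have h5 := hbig 1 h1 zero_le_one
    have h6 := fb_triv ht0 hM
    calc _ ≤ (N : ℝ) := h6
      _ ≤ (N : ℝ) ^ (1 + ε) * S := by linarith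
      _ ≤ _ := by
          have : (2 * (2 + 2 / ε) * C1 + 1) * (N : ℝ) ^ (1 + ε) * S =
            2 * (2 + 2 / ε) * C1 * ((N : ℝ) ^ (1 + ε) * S) + (N : ℝ) ^ (1 + ε) * S := by ring
          linarith
  obtain ⟨H, hH1, hHN, hH2, hH3, hH4⟩ := fb_H hq hN ht1 hcase
  have hH0 : (0 : ℝ) < H := by exact_mod_cast hH1
  rw [ek] at hH4
  -- the sums
  have hsh := shiftAv (fun n => (n : ℂ) ^ (-((t : ℂ) * Complex.I))) (fun n => fb_norm ht0 n) N M H hH1 hNM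
  have hblock : ∀ n ∈ Ioc N M, ‖∑ h ∈ range H, ((n + h : ℕ) : ℂ) ^ (-((t : ℂ) * Complex.I))‖ ≤
      2 * ∑ r ∈ range H, lamC H r * ‖∑ h ∈ range H, e ((h : ℝ) * r / H) * e (ph k (cz t n) h)‖ := by
    intro n hn
    rw [mem_Ioc] at hn
    refine blockT k t ht0.le n H (by omega) ?_ _ ?_
    · refine hH2.trans (pow_le_pow_left₀ hN0.le ?_ _)
      exact_mod_cast hn.1.le
    · intro H' hH'
      refine (complH H (fun h => e (ph k (cz t n) h)) H' hH').trans (le_of_eq ?_)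
      refine sum_congr rfl fun r _ => ?_
      congr 2
      exact sum_congr rfl fun h _ => mul_comm _ _
  have hfi : ∀ r ∈ range H, ∑ n ∈ Ioc N M, ‖∑ h ∈ range H, e ((h : ℝ) * r / H) * e (ph k (cz t n) h)‖ ≤
      C1 * (H : ℝ) * (N : ℝ) ^ (1 + ε / 2) * S := by
    intro r _
    have h1 := hfirst N M H t hN hM hH1 hHN ht1 hH2 hH3 (fun h => e ((h : ℝ) * r / H)) (fun h => (norm_e _).le)
    refine h1.trans (le_of_eq ?_)
    rw [hS]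
    push_cast
    have e1 : (k : ℝ) * (k + 1) = (k + 1) * k := by ring
    have e2 : (k : ℝ) * (k + 1) ^ 2 = (k + 1) ^ 2 * k := by ring
    rw [e1, e2]
  have hlog : 2 + Real.log H ≤ (2 + 2 / ε) * (N : ℝ) ^ (ε / 2) := by
    have h1 : Real.log H ≤ Real.log N := Real.log_le_log hH0 (by exact_mod_cast hHN)
    have h2 : Real.log N ≤ (N : ℝ) ^ (ε / 2) / (ε / 2) := Real.log_le_rpow_div hN0.le (by positivity)
    have h3 : (1 : ℝ) ≤ (N : ℝ) ^ (ε / 2) := Real.one_le_rpow hN1 (by positivity)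
    have h4 : (N : ℝ) ^ (ε / 2) / (ε / 2) = 2 / ε * (N : ℝ) ^ (ε / 2) := by
      field_simp
    rw [h4] at h2
    nlinarith
  have hlogH : 0 ≤ 2 + Real.log H := by
    have := Real.log_natCast_nonneg H
    linarith
  have hsum : ∑ n ∈ Ioc N M, ‖∑ h ∈ range H, ((n + h : ℕ) : ℂ) ^ (-((t : ℂ) * Complex.I))‖ ≤
      2 * ((2 + Real.log H) * (C1 * (H : ℝ) * (N : ℝ) ^ (1 + ε / 2) * S)) := by
    refine (sum_le_sum hblock).trans ?_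
    rw [← mul_sum, sum_comm]
    refine mul_le_mul_of_nonneg_left ?_ (by norm_num)
    calc ∑ r ∈ range H, ∑ n ∈ Ioc N M, lamC H r * ‖∑ h ∈ range H, e ((h : ℝ) * r / H) * e (ph k (cz t n) h)‖ =
        ∑ r ∈ range H, lamC H r * ∑ n ∈ Ioc N M, ‖∑ h ∈ range H, e ((h : ℝ) * r / H) * e (ph k (cz t n) h)‖ :=
          sum_congr rfl fun r _ => by rw [mul_sum]
      _ ≤ ∑ r ∈ range H, lamC H r * (C1 * (H : ℝ) * (N : ℝ) ^ (1 + ε / 2) * S) :=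
          sum_le_sum fun r hr => mul_le_mul_of_nonneg_left (hfi r hr) (lamC_nonneg H r (mem_range.1 hr))
      _ = (∑ r ∈ range H, lamC H r) * (C1 * (H : ℝ) * (N : ℝ) ^ (1 + ε / 2) * S) := by rw [sum_mul]
      _ ≤ (2 + Real.log H) * (C1 * (H : ℝ) * (N : ℝ) ^ (1 + ε / 2) * S) :=
          mul_le_mul_of_nonneg_right (lamC_sum H hH1) (by positivity)
  have hHS : (H : ℝ) ≤ (N : ℝ) ^ (1 + ε) * S := by
    refine hH4.trans (hbig _ ?_ (by positivity))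
    rw [hS]
    have h3 : 0 ≤ (N : ℝ) ^ (-(1 / (((k + 1 : ℕ) : ℝ) * k))) := by positivity
    have h4 : 0 ≤ (t / (N : ℝ) ^ (k + 1)) ^ (1 / (((k + 1 : ℕ) : ℝ) * k)) := by positivity
    linarith
  have hN2 : (N : ℝ) ^ (ε / 2) * (N : ℝ) ^ (1 + ε / 2) = (N : ℝ) ^ (1 + ε) := by
    rw [← Real.rpow_add hN0]
    congr 1
    ring
  calc _ ≤ 1 / (H : ℝ) * ∑ n ∈ Ioc N M, ‖∑ h ∈ range H, ((n + h : ℕ) : ℂ) ^ (-((t : ℂ) * Complex.I))‖ + H := hsh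
    _ ≤ 1 / (H : ℝ) * (2 * ((2 + Real.log H) * (C1 * (H : ℝ) * (N : ℝ) ^ (1 + ε / 2) * S))) + H := by
        have := mul_le_mul_of_nonneg_left hsum (by positivity : 0 ≤ 1 / (H : ℝ))
        linarith
    _ = 2 * ((2 + Real.log H) * (C1 * (N : ℝ) ^ (1 + ε / 2) * S)) + H := by
        field_simp
    _ ≤ 2 * ((2 + 2 / ε) * (N : ℝ) ^ (ε / 2) * (C1 * (N : ℝ) ^ (1 + ε / 2) * S)) + (N : ℝ) ^ (1 + ε) * S := by
        have h1 : 0 ≤ C1 * (N : ℝ) ^ (1 + ε / 2) * S := by positivity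
        have h2 := mul_le_mul_of_nonneg_right hlog h1
        linarith
    _ = 2 * (2 + 2 / ε) * C1 * ((N : ℝ) ^ (ε / 2) * (N : ℝ) ^ (1 + ε / 2)) * S + (N : ℝ) ^ (1 + ε) * S := by ring
    _ = _ := by
        rw [hN2]
        ring

end Pool.Agent.Lib.HB
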