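import Pool.Agent.Lib.HB.Defs

/-!
# HB / CM (120 lines): counting a monotone sequence near the integers

PROOF.  `σ = -1`: replace `z` by `-z` and `β` by `-β` (`nrm_neg`).  Let `σ = 1`.  For `u` in the set let `m u = round (z u - β)`, `|z u - β - m u| ≤ ρ`.
(1) `z` is increasing (induction on the gap hypothesis), all `z u` lie in `[z 0, z 0 + R]`, so `m u ∈ [z 0 - β - ρ, z 0 + R - β + ρ]`: at most
`R + 2 ρ + 1` integers.  (2) For fixed `m` the set `{u : |z u - β - m| ≤ ρ}`: if `p` is its least element, then for every other `u` in it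
`mu (u - p) ≤ z u - z p ≤ 2 ρ`, so `u ∈ [p, p + ⌊2ρ/mu⌋]`: at most `1 + 2ρ/mu` elements.  (3) Fiberwise: `card ≤ (number of m) (1 + 2ρ/mu)`
(`Finset.card_eq_sum_card_image` or `card_le_mul_card_image`).  Empty set: the right side is `≥ 0` (`0 ≤ R` if `U > 0`; `R` may be negative only if `U = 0`:
therefore `0 ≤ R` is a hypothesis).
-/

set_option autoImplicit false

namespace Pool.Agent.Lib.HB

open Finset Pool.Agent.Lib.ZB

private theorem cm_gap (U : ℕ) (z : ℕ → ℝ) (mu : ℝ) (hz : ∀ u, u + 1 < U → mu ≤ z (u + 1) - z u) (p d : ℕ)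
    (h : p + d < U) : mu * d ≤ z (p + d) - z p := by
  induction d with
  | zero => simp
  | succ d ih =>
    have h1 := ih (by omega)
    have h2 := hz (p + d) (by omega)
    push_cast
    rw [show p + (d + 1) = p + d + 1 by ring]
    linarith

open Classical in
private theorem cm_core (U : ℕ) (z : ℕ → ℝ) (mu R ρ : ℝ) (hmu : 0 < mu) (hR0 : 0 ≤ R) (hρ : 0 ≤ ρ)
    (hz : ∀ u, u + 1 < U → mu ≤ z (u + 1) - z u) (hR : ∀ u < U, |z u - z 0| ≤ R) (β : ℝ) :
    (((range U).filter fun u => nrm (z u - β) ≤ ρ).card : ℝ) ≤ (R + 2 * ρ + 1) * (1 + 2 * ρ / mu) := by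
  set S := (range U).filter fun u => nrm (z u - β) ≤ ρ with hS
  have hmem : ∀ u ∈ S, u < U ∧ |z u - β - (round (z u - β) : ℤ)| ≤ ρ := by
    intro u hu
    rw [hS, mem_filter, mem_range] at hu
    exact hu
  have hT : ((S.image fun u => round (z u - β)).card : ℝ) ≤ R + 2 * ρ + 1 := by
    have h1 : (S.image fun u => round (z u - β)) ⊆ Icc ⌈z 0 - β - ρ⌉ ⌊z 0 + R - β + ρ⌋ := by
      intro m hm
      rw [mem_image] at hm
      obtain ⟨u, hu, rfl⟩ := hm
      obtain ⟨hu1, hu2⟩ := hmem u hu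
      have h2 := cm_gap U z mu hz 0 u (by omega)
      rw [zero_add] at h2
      have h3 := hR u hu1
      rw [abs_le] at h3
      have h4 : 0 ≤ mu * u := by positivity
      rw [abs_le] at hu2
      rw [mem_Icc, Int.ceil_le, Int.le_floor]
      constructor <;> linarith [hu2.1, hu2.2, h3.1, h3.2]
    have h2 := card_le_card h1
    rw [Int.card_Icc] at h2
    have h3 : (((⌊z 0 + R - β + ρ⌋ + 1 - ⌈z 0 - β - ρ⌉).toNat : ℕ) : ℝ) ≤ R + 2 * ρ + 1 := by
      have h5 := Int.floor_le (z 0 + R - β + ρ)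
      have h6 := Int.le_ceil (z 0 - β - ρ)
      rcases le_total (⌊z 0 + R - β + ρ⌋ + 1 - ⌈z 0 - β - ρ⌉) 0 with h | h
      · rw [Int.toNat_of_nonpos h]
        push_cast
        linarith
      · have h7 : (((⌊z 0 + R - β + ρ⌋ + 1 - ⌈z 0 - β - ρ⌉).toNat : ℕ) : ℝ)
            = ((⌊z 0 + R - β + ρ⌋ + 1 - ⌈z 0 - β - ρ⌉ : ℤ) : ℝ) := by
          rw [← Int.cast_natCast, Int.toNat_of_nonneg h]
        rw [h7]
        push_cast
        linarith
    exact (Nat.cast_le.2 h2).trans h3
  have hF : ∀ m ∈ S.image fun u => round (z u - β), ((S.filter fun u => round (z u - β) = m).card : ℝ) ≤ 1 + 2 * ρ / mu := by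
    intro m hm
    have hne : (S.filter fun u => round (z u - β) = m).Nonempty := by
      rw [mem_image] at hm
      obtain ⟨u, hu, hum⟩ := hm
      exact ⟨u, mem_filter.2 ⟨hu, hum⟩⟩
    set p := (S.filter fun u => round (z u - β) = m).min' hne with hp
    have hpS := (S.filter fun u => round (z u - β) = m).min'_mem hne
    rw [← hp, mem_filter] at hpS
    obtain ⟨hp1, hp2⟩ := hmem p hpS.1
    rw [hpS.2] at hp2
    have h1 : (S.filter fun u => round (z u - β) = m) ⊆ Icc p (p + ⌊2 * ρ / mu⌋₊) := by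
      intro u hu
      have hpu : p ≤ u := (S.filter fun u => round (z u - β) = m).min'_le u hu
      rw [mem_filter] at hu
      obtain ⟨hu1, hu2⟩ := hmem u hu.1
      rw [hu.2] at hu2
      have h2 := cm_gap U z mu hz p (u - p) (by omega)
      rw [show p + (u - p) = u by omega] at h2
      rw [abs_le] at hu2 hp2
      rw [mem_Icc]
      refine ⟨hpu, ?_⟩
      have h3 : u - p ≤ ⌊2 * ρ / mu⌋₊ := by
        apply Nat.le_floor
        rw [le_div_iff₀ hmu]
        linarith [hu2.1, hu2.2, hp2.1, hp2.2]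
      omega
    have h4 := card_le_card h1
    rw [Nat.card_Icc] at h4
    have h5 : ((⌊2 * ρ / mu⌋₊ : ℕ) : ℝ) ≤ 2 * ρ / mu := Nat.floor_le (by positivity)
    have h6 : ((S.filter fun u => round (z u - β) = m).card : ℝ) ≤ (⌊2 * ρ / mu⌋₊ : ℕ) + 1 := by
      exact_mod_cast (by omega : (S.filter fun u => round (z u - β) = m).card ≤ ⌊2 * ρ / mu⌋₊ + 1)
    linarith
  have h0 : 0 ≤ 1 + 2 * ρ / mu := by positivity
  calc (S.card : ℝ) = ∑ m ∈ S.image fun u => round (z u - β), ((S.filter fun u => round (z u - β) = m).card : ℝ) := by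
        rw [card_eq_sum_card_image (fun u => round (z u - β)) S]
        push_cast
        rfl
    _ ≤ ∑ m ∈ S.image fun u => round (z u - β), (1 + 2 * ρ / mu) := sum_le_sum hF
    _ = ((S.image fun u => round (z u - β)).card : ℝ) * (1 + 2 * ρ / mu) := by rw [sum_const, nsmul_eq_mul]
    _ ≤ (R + 2 * ρ + 1) * (1 + 2 * ρ / mu) := mul_le_mul_of_nonneg_right hT h0

open Classical in
theorem count_mono (U : ℕ) (z : ℕ → ℝ) (σ : ℝ) (hσ : σ = 1 ∨ σ = -1) (mu R ρ : ℝ) (hmu : 0 < mu) (hR0 : 0 ≤ R) (hρ : 0 ≤ ρ)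
    (hz : ∀ u, u + 1 < U → mu ≤ σ * (z (u + 1) - z u)) (hR : ∀ u < U, |z u - z 0| ≤ R) (β : ℝ) :
    (((range U).filter fun u => nrm (z u - β) ≤ ρ).card : ℝ) ≤ (R + 2 * ρ + 1) * (1 + 2 * ρ / mu) := by
  rcases hσ with h | h
  · subst h
    refine cm_core U z mu R ρ hmu hR0 hρ (fun u hu => ?_) hR β
    have := hz u hu
    rwa [one_mul] at this
  · subst h
    have h1 := cm_core U (fun u => -z u) mu R ρ hmu hR0 hρ (fun u hu => by
      have := hz u hu
      linarith) (fun u hu => by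
      have := hR u hu
      rw [← abs_neg] at this
      rwa [show -z u - -z 0 = -(z u - z 0) by ring]) (-β)
    have h2 : ∀ u, nrm (-z u - -β) = nrm (z u - β) := by
      intro u
      rw [show -z u - -β = -(z u - β) by ring, nrm_neg]
    simp only [h2] at h1
    exact h1

end Pool.Agent.Lib.HB
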