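import Pool.Agent.Lib.HB.Defs
import Pool.Agent.Lib.ZB.K1

/-!
# HB / KF (70 lines): the Fejér kernel

PROOF.  Put `u = M nrm x`.  `ker_le`: `FK M x ≤ M^2/M = M`.  `ker_mul` with `m = round x` (`abs_sub_round`): `‖∑‖ (2 nrm x) ≤ 1`, so
`FK M x · (4 (nrm x)^2) M ≤ 1`, that is `FK M x · 4 u^2 ≤ M`.  The claim is `FK M x (1 + u^2) ≤ 2 M`: `FK M x ≤ M` and `FK M x u^2 ≤ M/4`.
-/

set_option autoImplicit false

namespace Pool.Agent.Lib.HB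

open Finset Pool.Agent.Lib.ZB

theorem FK_le (M : ℕ) (hM : 1 ≤ M) (x : ℝ) : FK M x ≤ 2 * M * wt M x := by
  have hM0 : (0 : ℝ) < M := by exact_mod_cast hM
  have h1 := ker_le M x
  have h2 := ker_mul M x (round x) (abs_sub_round x)
  have h3 : |x - (round x : ℤ)| = nrm x := rfl
  rw [h3] at h2
  have h4 := nrm_nonneg x
  unfold FK wt
  obtain ⟨S, hS⟩ : ∃ S, S = ‖∑ v ∈ range M, e ((v : ℝ) * x)‖ := ⟨_, rfl⟩
  have hS0 : 0 ≤ S := by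
    rw [hS]
    exact norm_nonneg _
  rw [← hS] at h1 h2 ⊢
  obtain ⟨r, hr⟩ : ∃ r, r = nrm x := ⟨_, rfl⟩
  rw [← hr] at h2 h4 ⊢
  have h5 : S ^ 2 ≤ (M : ℝ) ^ 2 := pow_le_pow_left₀ hS0 h1 2
  have h6 : (S * (2 * r)) ^ 2 ≤ 1 := by
    have h7 : 0 ≤ S * (2 * r) := by positivity
    nlinarith
  have h7 : S ^ 2 * (1 + ((M : ℝ) * r) ^ 2) ≤ 2 * (M : ℝ) ^ 2 := by
    have h8 : S ^ 2 * ((M : ℝ) * r) ^ 2 = (M : ℝ) ^ 2 * ((S * (2 * r)) ^ 2) / 4 := by ring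
    have h9 : (M : ℝ) ^ 2 * ((S * (2 * r)) ^ 2) ≤ (M : ℝ) ^ 2 * 1 :=
      mul_le_mul_of_nonneg_left h6 (by positivity)
    nlinarith
  have h10 : 0 < 1 + ((M : ℝ) * r) ^ 2 := by positivity
  rw [div_le_iff₀ hM0, mul_one_div, div_mul_eq_mul_div, le_div_iff₀ h10]
  calc S ^ 2 * (1 + ((M : ℝ) * r) ^ 2) ≤ 2 * (M : ℝ) ^ 2 := h7
    _ = 2 * M * M := by ring

end Pool.Agent.Lib.HB
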