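import Pool.Agent.Lib.HB.XG

/-!
# HB / XE (150 lines): the power of a block as a sum over the vectors of power sums

PROOF.  (As row X1 of ZB, with the last TWO coordinates split off.)  `(∑_{h<H} w h e(ph k (c n) h))^s = ∑_{z : Fin s → Fin H} ∏_i (w (z i) e(ph k (c n) (z i)))`,
`∏_i e(ph k (c n) (z i)) = e(∑_{1 ≤ j ≤ k} c n j p_j(z))`, `p_j(z) = ∑_i (z i)^j` (`e_sum`).  Split off `j = k-1` and `j = k` (`k ≥ 2`; for `k = 2` nothing else remains).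
Apply `groupH` with `X = Fin s → Fin H`, `K = ℕ → ℕ`, `κ z = fun j => if 1 ≤ j ∧ j ≤ k-2 then p_j(z) else 0`, `m1 z = p_(k-1)(z) ≤ s H^(k-1)`, `m2 z = p_k(z) ≤ s H^k`,
`v z = ∏ w (z i)`, `α n p = ∑_{1 ≤ j ≤ k-2} c n j p_j`.  The number of pairs is `VJ s k H`; the number of values of `κ` is `≤ ∏_{j=1}^{k-2} (s H^j + 1)`.
-/

set_option autoImplicit false

namespace Pool.Agent.Lib.HB

open Finset Pool.Agent.Lib.ZB

private noncomputable def XEkap (s q H : ℕ) (x : Fin s → Fin H) (j : ℕ) : ℕ :=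
  if j ∈ Icc 1 q then ∑ i, (x i : ℕ) ^ j else 0

private theorem XE_psum_le (s H j : ℕ) (x : Fin s → Fin H) : ∑ i, (x i : ℕ) ^ j ≤ s * H ^ j := by
  calc ∑ i, (x i : ℕ) ^ j ≤ ∑ _i : Fin s, H ^ j := sum_le_sum fun i _ => Nat.pow_le_pow_left (x i).isLt.le j
    _ = s * H ^ j := by simp

open Classical in
private theorem XE_card (s q H : ℕ) :
    ((univ.image (XEkap s q H)).card : ℝ) ≤ ∏ j ∈ Icc 1 q, ((s : ℝ) * (H : ℝ) ^ j + 1) := by
  set g : (∀ j ∈ Icc 1 q, ℕ) → (ℕ → ℕ) := fun a j => if h : j ∈ Icc 1 q then a j h else 0 with hg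
  have h1 : univ.image (XEkap s q H) ⊆ ((Icc 1 q).pi fun j => range (s * H ^ j + 1)).image g := by
    intro f hf
    obtain ⟨x, -, rfl⟩ := mem_image.1 hf
    refine mem_image.2 ⟨fun j _ => ∑ i, (x i : ℕ) ^ j, ?_, ?_⟩
    · rw [mem_pi]
      intro j _
      exact mem_range.2 (Nat.lt_succ_of_le (XE_psum_le s H j x))
    · funext j
      simp only [hg, XEkap]
      by_cases h : j ∈ Icc 1 q
      · rw [dif_pos h, if_pos h]
      · rw [dif_neg h, if_neg h]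
  have h2 : (univ.image (XEkap s q H)).card ≤ ∏ j ∈ Icc 1 q, (s * H ^ j + 1) := by
    refine (card_le_card h1).trans (card_image_le.trans ?_)
    rw [card_pi]
    simp
  calc ((univ.image (XEkap s q H)).card : ℝ) ≤ ((∏ j ∈ Icc 1 q, (s * H ^ j + 1) : ℕ) : ℝ) := by exact_mod_cast h2
    _ = _ := by push_cast; rfl

open Classical in
private theorem XE_pairs (s q H : ℕ) :
    (univ.filter fun p : (Fin s → Fin H) × (Fin s → Fin H) => XEkap s q H p.1 = XEkap s q H p.2 ∧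
      ∑ i, (p.1 i : ℕ) ^ (q + 1) = ∑ i, (p.2 i : ℕ) ^ (q + 1) ∧
      ∑ i, (p.1 i : ℕ) ^ (q + 2) = ∑ i, (p.2 i : ℕ) ^ (q + 2)).card ≤ VJ s (q + 2) H := by
  unfold VJ
  refine card_le_card fun p hp => ?_
  obtain ⟨h1, h2, h2'⟩ := (mem_filter.1 hp).2
  refine (@mem_filter _ _ (fun _ => Classical.propDecidable _) _ _).2 ⟨mem_univ _, fun j hj => ?_⟩
  rw [mem_Icc] at hj
  rcases Nat.lt_or_ge j (q + 1) with h | h
  · have h3 := congrFun h1 j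
    have h4 : j ∈ Icc 1 q := mem_Icc.2 ⟨hj.1, by omega⟩
    unfold XEkap at h3
    rw [if_pos h4, if_pos h4] at h3
    exact h3
  · have h5 : j = q + 1 ∨ j = q + 2 := by omega
    rcases h5 with h5 | h5
    · rw [h5]
      exact h2
    · rw [h5]
      exact h2'

private theorem XE_phase (s q H : ℕ) (c : ℕ → ℝ) (x : Fin s → Fin H) :
    ∑ i, ph (q + 2) c (x i) =
      (∑ j ∈ Icc 1 q, c j * (XEkap s q H x j : ℝ)) + (((∑ i, (x i : ℕ) ^ (q + 1) : ℕ) : ℝ) * c (q + 1) +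
        ((∑ i, (x i : ℕ) ^ (q + 2) : ℕ) : ℝ) * c (q + 2)) := by
  unfold ph
  rw [sum_comm, Finset.sum_Icc_succ_top (by omega : 1 ≤ q + 1 + 1), Finset.sum_Icc_succ_top (by omega : 1 ≤ q + 1),
    add_assoc]
  congr 1
  · refine sum_congr rfl fun j hj => ?_
    unfold XEkap
    rw [if_pos hj, ← mul_sum]
    push_cast
    rfl
  · congr 1
    · rw [← mul_sum, mul_comm]
      push_cast
      rfl
    · rw [← mul_sum, mul_comm]
      push_cast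
      rfl

private theorem XE_expand (s q H : ℕ) (c : ℕ → ℝ) (w : ℕ → ℂ) :
    (∑ h ∈ range H, w h * e (ph (q + 2) c h)) ^ s =
      ∑ x : Fin s → Fin H, (∏ i, w (x i)) *
        (e (∑ j ∈ Icc 1 q, c j * (XEkap s q H x j : ℝ)) *
          e (((∑ i, (x i : ℕ) ^ (q + 1) : ℕ) : ℝ) * c (q + 1) + ((∑ i, (x i : ℕ) ^ (q + 2) : ℕ) : ℝ) * c (q + 2))) := by
  rw [sum_range, Fintype.sum_pow]
  refine sum_congr rfl fun x _ => ?_
  rw [prod_mul_distrib, ← e_sum, XE_phase, e_add]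

theorem expandH (s k H : ℕ) (hk : 2 ≤ k) (I : Finset ℕ) (c : ℕ → ℕ → ℝ) (w : ℕ → ℂ) (hw : ∀ h, ‖w h‖ ≤ 1)
    (δ : ℕ → ℂ) (hδ : ∀ n, ‖δ n‖ ≤ 1) (B : ℝ) (hB0 : 0 ≤ B)
    (hB : ∀ b : ℕ → ℂ, (∀ n, ‖b n‖ ≤ 1) →
      ∑ i ∈ range (s * H ^ (k - 1) + 1), ∑ j ∈ range (s * H ^ k + 1),
        ‖∑ n ∈ I, b n * e ((i : ℝ) * c n (k - 1) + (j : ℝ) * c n k)‖ ^ 2 ≤ B) :
    ‖∑ n ∈ I, δ n * (∑ h ∈ range H, w h * e (ph k (c n) h)) ^ s‖ ^ 2 ≤
      B * (∏ j ∈ Icc 1 (k - 2), ((s : ℝ) * (H : ℝ) ^ j + 1)) * (VJ s k H : ℝ) := by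
  obtain ⟨q, rfl⟩ : ∃ q, k = q + 2 := ⟨k - 2, by omega⟩
  have hq1 : q + 2 - 1 = q + 1 := by omega
  have hq2 : q + 2 - 2 = q := by omega
  rw [hq1] at hB
  rw [hq2]
  have hv : ∀ x : Fin s → Fin H, ‖∏ i, w (x i)‖ ≤ 1 := by
    intro x
    rw [norm_prod]
    exact prod_le_one (fun i _ => norm_nonneg _) (fun i _ => hw _)
  have key := groupH (XEkap s q H) (fun x => ∑ i, (x i : ℕ) ^ (q + 1)) (fun x => ∑ i, (x i : ℕ) ^ (q + 2))
    (fun x => ∏ i, w (x i)) hv (s * H ^ (q + 1) + 1) (s * H ^ (q + 2) + 1)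
    (fun x => Nat.lt_succ_of_le (XE_psum_le s H (q + 1) x)) (fun x => Nat.lt_succ_of_le (XE_psum_le s H (q + 2) x))
    I (fun n K => ∑ j ∈ Icc 1 q, c n j * (K j : ℝ)) (fun n => c n (q + 1)) (fun n => c n (q + 2)) δ hδ B hB0 hB
  have h1 : ∑ n ∈ I, δ n * (∑ h ∈ range H, w h * e (ph (q + 2) (c n) h)) ^ s =
      ∑ n ∈ I, δ n * ∑ x : Fin s → Fin H, (∏ i, w (x i)) *
        (e (∑ j ∈ Icc 1 q, c n j * (XEkap s q H x j : ℝ)) *
          e (((∑ i, (x i : ℕ) ^ (q + 1) : ℕ) : ℝ) * c n (q + 1) +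
            ((∑ i, (x i : ℕ) ^ (q + 2) : ℕ) : ℝ) * c n (q + 2))) :=
    sum_congr rfl fun n _ => by rw [XE_expand]
  rw [h1]
  refine key.trans ?_
  have h2 := XE_card s q H
  have h3 : (0 : ℝ) ≤ ∏ j ∈ Icc 1 q, ((s : ℝ) * (H : ℝ) ^ j + 1) := prod_nonneg fun j _ => by positivity
  refine mul_le_mul (mul_le_mul_of_nonneg_left h2 hB0) ?_ (Nat.cast_nonneg _) (mul_nonneg hB0 h3)
  exact_mod_cast XE_pairs s q H

end Pool.Agent.Lib.HB
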