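import Pool.Agent.Lib.HB.Defs

/-!
# HB / CZ (130 lines): the last two Taylor coefficients

`cz t n j = (-1)^j t/(2 π j n^j)`.

PROOF.  `cz_gap`: `(-1)^(k+1) (cz t m k - cz t n k) = t/(2 π k) (n^(-k) - m^(-k))` and `n^(-k) - m^(-k) ≥ k (m - n) m^(-k-1)` (Bernoulli
`(m/n)^k ≥ 1 + k (m-n)/n ≥ 1 + k (m - n)/m`, `one_add_mul_le_pow`, or the mean value theorem).
`cz_var`: `n^(-k) - m^(-k) ≤ k (m - n) n^(-k-1)`: `(n/m)^k = (1 - (m-n)/m)^k ≥ 1 - k (m-n)/m ≥ 1 - k (m-n)/n`, and `t/(2π) ≤ t`.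
`cz_abs`: `1/(2 π k) ≤ 1`.
`cz_lin`: with `g x = x^(-(k-1))` and `x = u`, `y = u + r`: `cz t y (k-1) - cz t u (k-1) - r k cz t u k`
`= (-1)^(k-1) t/(2 π (k-1)) (g y - g u + (k-1) r u^(-k))` (note `k cz t u k = (-1)^k t/(2 π u^k)`), and
`0 ≤ g y - g u + (k-1) r u^(-k) ≤ (k-1) k r^2 u^(-k-1)`: from the first order inequalities applied twice, or: put `a = u/y ∈ (0,1]`;
lower: `cz_gap` type inequality `u^(-(k-1)) - y^(-(k-1)) ≤ (k-1) r u^(-k)`; upper: `u^(-(k-1)) - y^(-(k-1)) ≥ (k-1) r y^(-k)` and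
`u^(-k) - y^(-k) ≤ k r u^(-k-1)`.  Absolute value `≤ t/(2 π) k r^2 u^(-k-1) ≤ k r^2 t/u^(k+1)`.
-/

set_option autoImplicit false

namespace Pool.Agent.Lib.HB

open Finset Pool.Agent.Lib.ZB

private theorem cz_L (x y : ℝ) (k : ℕ) (hx : 0 < x) (hxy : x ≤ y) :
    k * (y - x) / y ^ (k + 1) ≤ 1 / x ^ k - 1 / y ^ k := by
  have hy : 0 < y := hx.trans_le hxy
  have h1 := one_add_mul_le_pow (a := (y - x) / x) (by
    have : 0 ≤ (y - x) / x := div_nonneg (by linarith) hx.le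
    linarith) k
  have h2 : 1 + (y - x) / x = y / x := by
    field_simp
    ring
  rw [h2, div_pow] at h1
  have h3 : (y - x) / y ≤ (y - x) / x := div_le_div_of_nonneg_left (by linarith) hx hxy
  have h4 : (k : ℝ) * ((y - x) / y) ≤ k * ((y - x) / x) := mul_le_mul_of_nonneg_left h3 (Nat.cast_nonneg _)
  have h5 : 1 + (k : ℝ) * ((y - x) / y) ≤ y ^ k / x ^ k := by linarith
  have h6 : (1 + (k : ℝ) * ((y - x) / y)) * (1 / y ^ k) ≤ y ^ k / x ^ k * (1 / y ^ k) :=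
    mul_le_mul_of_nonneg_right h5 (by positivity)
  have h7 : y ^ k / x ^ k * (1 / y ^ k) = 1 / x ^ k := by field_simp
  have h8 : (1 + (k : ℝ) * ((y - x) / y)) * (1 / y ^ k) = 1 / y ^ k + k * (y - x) / y ^ (k + 1) := by
    rw [pow_succ]
    field_simp
  rw [h7, h8] at h6
  linarith

private theorem cz_U (x y : ℝ) (k : ℕ) (hx : 0 < x) (hxy : x ≤ y) :
    1 / x ^ k - 1 / y ^ k ≤ k * (y - x) / x ^ (k + 1) := by
  have hy : 0 < y := hx.trans_le hxy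
  have h0 : (y - x) / y ≤ 1 := by
    rw [div_le_one hy]
    linarith
  have h1 := one_add_mul_le_pow (a := -((y - x) / y)) (by linarith) k
  have h2 : 1 + -((y - x) / y) = x / y := by
    field_simp
    ring
  rw [h2, div_pow] at h1
  have h3 : (y - x) / y ≤ (y - x) / x := div_le_div_of_nonneg_left (by linarith) hx hxy
  have h4 : (k : ℝ) * ((y - x) / y) ≤ k * ((y - x) / x) := mul_le_mul_of_nonneg_left h3 (Nat.cast_nonneg _)
  have h5 : 1 - (k : ℝ) * ((y - x) / x) ≤ x ^ k / y ^ k := by linarith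
  have h6 : (1 - (k : ℝ) * ((y - x) / x)) * (1 / x ^ k) ≤ x ^ k / y ^ k * (1 / x ^ k) :=
    mul_le_mul_of_nonneg_right h5 (by positivity)
  have h7 : x ^ k / y ^ k * (1 / x ^ k) = 1 / y ^ k := by field_simp
  have h8 : (1 - (k : ℝ) * ((y - x) / x)) * (1 / x ^ k) = 1 / x ^ k - k * (y - x) / x ^ (k + 1) := by
    rw [pow_succ]
    field_simp
  rw [h7, h8] at h6
  linarith

private theorem cz_sub (t : ℝ) (k n m : ℕ) :
    cz t m k - cz t n k = (-1 : ℝ) ^ (k + 1) * (t / (2 * Real.pi * k) * (1 / (n : ℝ) ^ k - 1 / (m : ℝ) ^ k)) := by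
  unfold cz
  rw [pow_succ]
  simp only [div_eq_mul_inv, mul_inv]
  ring

private theorem cz_sgn (k : ℕ) : (-1 : ℝ) ^ k * (-1 : ℝ) ^ k = 1 := by
  rw [← mul_pow]
  norm_num

private theorem cz_sgn_abs (k : ℕ) : |(-1 : ℝ) ^ k| = 1 := by
  rw [abs_pow, abs_neg, abs_one, one_pow]

theorem cz_gap (t : ℝ) (ht : 0 ≤ t) (k n m : ℕ) (hk : 1 ≤ k) (hn : 1 ≤ n) (hnm : n ≤ m) :
    t * ((m : ℝ) - n) / (2 * Real.pi * (m : ℝ) ^ (k + 1)) ≤ (-1 : ℝ) ^ (k + 1) * (cz t m k - cz t n k) := by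
  have hn0 : (0 : ℝ) < n := by exact_mod_cast hn
  have hnm' : (n : ℝ) ≤ m := by exact_mod_cast hnm
  have hm0 : (0 : ℝ) < m := hn0.trans_le hnm'
  have hk0 : (0 : ℝ) < k := by exact_mod_cast hk
  have hpi := Real.pi_pos
  rw [cz_sub, ← mul_assoc, cz_sgn, one_mul]
  have h1 := cz_L n m k hn0 hnm'
  calc t * ((m : ℝ) - n) / (2 * Real.pi * (m : ℝ) ^ (k + 1)) =
      t / (2 * Real.pi * k) * (k * ((m : ℝ) - n) / (m : ℝ) ^ (k + 1)) := by field_simp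
    _ ≤ _ := mul_le_mul_of_nonneg_left h1 (by positivity)

theorem cz_var (t : ℝ) (ht : 0 ≤ t) (k n m : ℕ) (hk : 1 ≤ k) (hn : 1 ≤ n) (hnm : n ≤ m) :
    |cz t m k - cz t n k| ≤ ((m : ℝ) - n) * t / (n : ℝ) ^ (k + 1) := by
  have hn0 : (0 : ℝ) < n := by exact_mod_cast hn
  have hnm' : (n : ℝ) ≤ m := by exact_mod_cast hnm
  have hm0 : (0 : ℝ) < m := hn0.trans_le hnm'
  have hk0 : (0 : ℝ) < k := by exact_mod_cast hk
  have hpi := Real.pi_gt_three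
  have h1 := cz_U n m k hn0 hnm'
  have h2 : 0 ≤ 1 / (n : ℝ) ^ k - 1 / (m : ℝ) ^ k := by
    have := one_div_le_one_div_of_le (pow_pos hn0 k) (pow_le_pow_left₀ hn0.le hnm' k)
    linarith
  rw [cz_sub, abs_mul, cz_sgn_abs, one_mul, abs_of_nonneg (mul_nonneg (by positivity) h2)]
  calc t / (2 * Real.pi * k) * (1 / (n : ℝ) ^ k - 1 / (m : ℝ) ^ k) ≤
      t / (2 * Real.pi * k) * (k * ((m : ℝ) - n) / (n : ℝ) ^ (k + 1)) :=
        mul_le_mul_of_nonneg_left h1 (by positivity)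
    _ = (((m : ℝ) - n) * t / (n : ℝ) ^ (k + 1)) / (2 * Real.pi) := by field_simp
    _ ≤ ((m : ℝ) - n) * t / (n : ℝ) ^ (k + 1) := by
        refine div_le_self ?_ (by linarith)
        have : 0 ≤ (m : ℝ) - n := by linarith
        positivity

/-- all values lie on one side of `0` and are at most `t/N^k` in absolute value -/
theorem cz_abs (t : ℝ) (ht : 0 ≤ t) (k N n m : ℕ) (hk : 1 ≤ k) (hN : 1 ≤ N) (hn : N ≤ n) (hm : N ≤ m) :
    |cz t m k - cz t n k| ≤ t / (k * (N : ℝ) ^ k) := by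
  have hN0 : (0 : ℝ) < N := by exact_mod_cast hN
  have hn' : (N : ℝ) ≤ n := by exact_mod_cast hn
  have hm' : (N : ℝ) ≤ m := by exact_mod_cast hm
  have hn0 : (0 : ℝ) < n := hN0.trans_le hn'
  have hm0 : (0 : ℝ) < m := hN0.trans_le hm'
  have hk0 : (0 : ℝ) < k := by exact_mod_cast hk
  have hpi := Real.pi_gt_three
  have e1 := one_div_le_one_div_of_le (pow_pos hN0 k) (pow_le_pow_left₀ hN0.le hn' k)
  have e2 := one_div_le_one_div_of_le (pow_pos hN0 k) (pow_le_pow_left₀ hN0.le hm' k)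
  have e3 : 0 < 1 / (n : ℝ) ^ k := by positivity
  have e4 : 0 < 1 / (m : ℝ) ^ k := by positivity
  have h2 : |1 / (n : ℝ) ^ k - 1 / (m : ℝ) ^ k| ≤ 1 / (N : ℝ) ^ k := by
    rw [abs_le]
    constructor <;> linarith
  rw [cz_sub, abs_mul, cz_sgn_abs, one_mul, abs_mul, abs_of_nonneg (by positivity : 0 ≤ t / (2 * Real.pi * k))]
  calc t / (2 * Real.pi * k) * |1 / (n : ℝ) ^ k - 1 / (m : ℝ) ^ k| ≤
      t / (2 * Real.pi * k) * (1 / (N : ℝ) ^ k) := mul_le_mul_of_nonneg_left h2 (by positivity)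
    _ = (t / (k * (N : ℝ) ^ k)) / (2 * Real.pi) := by field_simp
    _ ≤ t / (k * (N : ℝ) ^ k) := div_le_self (by positivity) (by linarith)

theorem cz_lin (t : ℝ) (ht : 0 ≤ t) (k u r : ℕ) (hk : 2 ≤ k) (hu : 1 ≤ u) :
    |cz t (u + r) (k - 1) - cz t u (k - 1) - (r : ℝ) * (k * cz t u k)| ≤ k * (r : ℝ) ^ 2 * t / (u : ℝ) ^ (k + 1) := by
  obtain ⟨j, rfl⟩ : ∃ j, k = j + 1 := ⟨k - 1, by omega⟩
  have hj : 1 ≤ j := by omega
  have hj0 : (0 : ℝ) < j := by exact_mod_cast hj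
  have hu0 : (0 : ℝ) < u := by exact_mod_cast hu
  have hr0 : (0 : ℝ) ≤ r := Nat.cast_nonneg _
  have huy : (u : ℝ) ≤ ((u + r : ℕ) : ℝ) := by push_cast; linarith
  have hy0 : (0 : ℝ) < ((u + r : ℕ) : ℝ) := hu0.trans_le huy
  have hpi := Real.pi_gt_three
  have hyu : ((u + r : ℕ) : ℝ) - u = r := by push_cast; ring
  rw [Nat.add_sub_cancel]
  set y : ℝ := ((u + r : ℕ) : ℝ) with hy
  set E : ℝ := r / (u : ℝ) ^ (j + 1) - (1 / (j : ℝ)) * (1 / (u : ℝ) ^ j - 1 / y ^ j) with hE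
  have e1 : cz t (u + r) j - cz t u j - (r : ℝ) * (((j + 1 : ℕ) : ℝ) * cz t u (j + 1)) =
      (-1 : ℝ) ^ j * (t / (2 * Real.pi) * E) := by
    have hj1 : ((j + 1 : ℕ) : ℝ) ≠ 0 := by positivity
    rw [cz_sub, hE]
    unfold cz
    rw [← hy, pow_succ (-1 : ℝ) j]
    have hp : Real.pi ≠ 0 := by positivity
    have hu1 : (u : ℝ) ≠ 0 := hu0.ne'
    have hyn : y ≠ 0 := hy0.ne'
    have hjn : (j : ℝ) ≠ 0 := hj0.ne'
    field_simp
    ring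
  have h1 := cz_U u y j hu0 huy
  have h2 := cz_L u y j hu0 huy
  have h3 := cz_U u y (j + 1) hu0 huy
  rw [hyu] at h1 h2 h3
  have hE0 : 0 ≤ E := by
    have : (1 / (j : ℝ)) * (1 / (u : ℝ) ^ j - 1 / y ^ j) ≤ (1 / (j : ℝ)) * (j * r / (u : ℝ) ^ (j + 1)) :=
      mul_le_mul_of_nonneg_left h1 (by positivity)
    have h4 : (1 / (j : ℝ)) * (j * r / (u : ℝ) ^ (j + 1)) = r / (u : ℝ) ^ (j + 1) := by field_simp
    rw [hE]
    linarith
  have hE1 : E ≤ ((j + 1 : ℕ) : ℝ) * (r : ℝ) ^ 2 / (u : ℝ) ^ (j + 1 + 1) := by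
    have h5 : (1 / (j : ℝ)) * (j * r / y ^ (j + 1)) ≤ (1 / (j : ℝ)) * (1 / (u : ℝ) ^ j - 1 / y ^ j) :=
      mul_le_mul_of_nonneg_left h2 (by positivity)
    have h6 : (1 / (j : ℝ)) * (j * r / y ^ (j + 1)) = r * (1 / y ^ (j + 1)) := by field_simp
    have h7 : (r : ℝ) * (1 / (u : ℝ) ^ (j + 1) - 1 / y ^ (j + 1)) ≤
        r * (((j + 1 : ℕ) : ℝ) * r / (u : ℝ) ^ (j + 1 + 1)) := mul_le_mul_of_nonneg_left h3 hr0
    have h8 : (r : ℝ) * (((j + 1 : ℕ) : ℝ) * r / (u : ℝ) ^ (j + 1 + 1)) =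
        ((j + 1 : ℕ) : ℝ) * (r : ℝ) ^ 2 / (u : ℝ) ^ (j + 1 + 1) := by ring
    have h9 : (r : ℝ) / (u : ℝ) ^ (j + 1) = r * (1 / (u : ℝ) ^ (j + 1)) := by ring
    rw [hE, h9]
    linarith
  rw [e1, abs_mul, cz_sgn_abs, one_mul, abs_of_nonneg (mul_nonneg (by positivity) hE0)]
  calc t / (2 * Real.pi) * E ≤ t / (2 * Real.pi) * (((j + 1 : ℕ) : ℝ) * (r : ℝ) ^ 2 / (u : ℝ) ^ (j + 1 + 1)) :=
        mul_le_mul_of_nonneg_left hE1 (by positivity)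
    _ = (((j + 1 : ℕ) : ℝ) * (r : ℝ) ^ 2 * t / (u : ℝ) ^ (j + 1 + 1)) / (2 * Real.pi) := by ring
    _ ≤ ((j + 1 : ℕ) : ℝ) * (r : ℝ) ^ 2 * t / (u : ℝ) ^ (j + 1 + 1) := div_le_self (by positivity) (by linarith)

end Pool.Agent.Lib.HB
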