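import Pool.Agent.Lib.HB.Defs

/-!
# HB / WS (110 lines): from counts to weights

PROOF.  For `i ∈ A` put `d i = z i - round (z i)`, `nrm (z i) = |d i|`, `m i = ⌊D |d i|⌋₊`.  The `i` with `m i = m` satisfy
`|d i ∓ (m + 1/2)/D| ≤ 1/D` for one of the signs, so `nrm (z i ∓ (m + 1/2)/D) ≤ 1/D` (`nrm_le_abs`): at most `2 K` of them.
`wt D (z i) = 1/(1 + (D |d i|)^2) ≤ 1/(1 + m^2)`.  Sum over `m`: `∑ ≤ 2 K ∑_{m=0}^{L} 1/(1+m^2)`, and
`∑_{m=0}^{L} 1/(1+m^2) ≤ 4 - 2/(L+1)` by induction.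
-/

set_option autoImplicit false

namespace Pool.Agent.Lib.HB

open Finset Pool.Agent.Lib.ZB

private theorem ws_sum (n : ℕ) : ∑ m ∈ range (n + 1), 1 / (1 + (m : ℝ) ^ 2) ≤ 4 - 2 / ((n : ℝ) + 1) := by
  induction n with
  | zero => norm_num
  | succ n ih =>
    rw [sum_range_succ]
    have h1 : (0 : ℝ) < (n : ℝ) + 1 := by positivity
    have h2 : (0 : ℝ) < (n : ℝ) + 2 := by positivity
    have h3 : 1 / (1 + ((n + 1 : ℕ) : ℝ) ^ 2) ≤ 2 / ((n : ℝ) + 1) - 2 / (((n + 1 : ℕ) : ℝ) + 1) := by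
      push_cast
      have e : 2 / ((n : ℝ) + 1) - 2 / ((n : ℝ) + 1 + 1) = 2 / (((n : ℝ) + 1) * ((n : ℝ) + 2)) := by
        field_simp
        ring
      rw [e, div_le_div_iff₀ (by positivity) (by positivity)]
      nlinarith [sq_nonneg (n : ℝ), (Nat.cast_nonneg n : (0 : ℝ) ≤ n)]
    linarith

open Classical in
theorem wt_sum_le {ι : Type} (A : Finset ι) (z : ι → ℝ) (D : ℝ) (hD : 1 ≤ D) (K : ℝ)
    (hK : ∀ β : ℝ, ((A.filter fun i => nrm (z i - β) ≤ 1 / D).card : ℝ) ≤ K) :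
    ∑ i ∈ A, wt D (z i) ≤ 8 * K := by
  have hD0 : 0 < D := by linarith
  have hK0 : 0 ≤ K := le_trans (Nat.cast_nonneg _) (hK 0)
  have hmap : ∀ i ∈ A, ⌊D * nrm (z i)⌋₊ ∈ range (⌊D⌋₊ + 1) := by
    intro i _
    rw [mem_range]
    have h1 : D * nrm (z i) ≤ D := by nlinarith [nrm_le_half (z i), nrm_nonneg (z i)]
    exact Nat.lt_succ_of_le (Nat.floor_le_floor h1)
  rw [← sum_fiberwise_of_maps_to hmap]
  have hfib : ∀ m ∈ range (⌊D⌋₊ + 1), ∑ i ∈ A with ⌊D * nrm (z i)⌋₊ = m, wt D (z i) ≤ 2 * K * (1 / (1 + (m : ℝ) ^ 2)) := by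
    intro m _
    have hw : ∀ i ∈ A.filter (fun i => ⌊D * nrm (z i)⌋₊ = m), wt D (z i) ≤ 1 / (1 + (m : ℝ) ^ 2) := by
      intro i hi
      rw [mem_filter] at hi
      have h0 : 0 ≤ D * nrm (z i) := mul_nonneg hD0.le (nrm_nonneg _)
      have h1 : (m : ℝ) ≤ D * nrm (z i) := by
        rw [← hi.2]
        exact Nat.floor_le h0
      unfold wt
      apply one_div_le_one_div_of_le (by positivity)
      have h2 : (m : ℝ) ^ 2 ≤ (D * nrm (z i)) ^ 2 := pow_le_pow_left₀ (Nat.cast_nonneg m) h1 2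
      linarith
    have hsub : A.filter (fun i => ⌊D * nrm (z i)⌋₊ = m) ⊆
        (A.filter fun i => nrm (z i - ((m : ℝ) + 1 / 2) / D) ≤ 1 / D) ∪
        (A.filter fun i => nrm (z i - (-(((m : ℝ) + 1 / 2) / D))) ≤ 1 / D) := by
      intro i hi
      rw [mem_filter] at hi
      obtain ⟨hiA, hi⟩ := hi
      have h0 : 0 ≤ D * nrm (z i) := mul_nonneg hD0.le (nrm_nonneg _)
      have h1 : (m : ℝ) ≤ D * nrm (z i) := by
        rw [← hi]
        exact Nat.floor_le h0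
      have h2 : D * nrm (z i) < m + 1 := by
        rw [← hi]
        exact Nat.lt_floor_add_one _
      have h3 : (m : ℝ) / D ≤ nrm (z i) := by
        rw [div_le_iff₀ hD0]
        linarith
      have h4 : nrm (z i) ≤ (m : ℝ) / D + 1 / D := by
        rw [← add_div, le_div_iff₀ hD0]
        linarith
      have h5 : ((m : ℝ) + 1 / 2) / D = (m : ℝ) / D + 1 / 2 * (1 / D) := by
        field_simp
      have h6 : 0 < 1 / D := by positivity
      rw [mem_union, mem_filter, mem_filter]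
      rcases le_or_gt 0 (z i - round (z i)) with h | h
      · left
        refine ⟨hiA, (nrm_le_abs _ (round (z i))).trans ?_⟩
        have h7 : nrm (z i) = z i - round (z i) := abs_of_nonneg h
        rw [h5, abs_le]
        constructor
        · linarith
        · linarith
      · right
        refine ⟨hiA, (nrm_le_abs _ (round (z i))).trans ?_⟩
        have h7 : nrm (z i) = -(z i - round (z i)) := abs_of_neg h
        rw [h5, abs_le]
        constructor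
        · linarith
        · linarith
    have hcard : ((A.filter fun i => ⌊D * nrm (z i)⌋₊ = m).card : ℝ) ≤ 2 * K := by
      have h1 := (card_le_card hsub).trans (card_union_le _ _)
      have h2 : ((A.filter fun i => ⌊D * nrm (z i)⌋₊ = m).card : ℝ) ≤
          ((A.filter fun i => nrm (z i - ((m : ℝ) + 1 / 2) / D) ≤ 1 / D).card : ℝ) +
          ((A.filter fun i => nrm (z i - (-(((m : ℝ) + 1 / 2) / D))) ≤ 1 / D).card : ℝ) := by
        exact_mod_cast h1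
      linarith [hK (((m : ℝ) + 1 / 2) / D), hK (-(((m : ℝ) + 1 / 2) / D))]
    calc ∑ i ∈ A with ⌊D * nrm (z i)⌋₊ = m, wt D (z i)
        ≤ ((A.filter fun i => ⌊D * nrm (z i)⌋₊ = m).card) • (1 / (1 + (m : ℝ) ^ 2)) := sum_le_card_nsmul _ _ _ hw
      _ = ((A.filter fun i => ⌊D * nrm (z i)⌋₊ = m).card : ℝ) * (1 / (1 + (m : ℝ) ^ 2)) := nsmul_eq_mul _ _
      _ ≤ 2 * K * (1 / (1 + (m : ℝ) ^ 2)) := mul_le_mul_of_nonneg_right hcard (by positivity)
  calc ∑ m ∈ range (⌊D⌋₊ + 1), ∑ i ∈ A with ⌊D * nrm (z i)⌋₊ = m, wt D (z i)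
      ≤ ∑ m ∈ range (⌊D⌋₊ + 1), 2 * K * (1 / (1 + (m : ℝ) ^ 2)) := sum_le_sum hfib
    _ = 2 * K * ∑ m ∈ range (⌊D⌋₊ + 1), 1 / (1 + (m : ℝ) ^ 2) := by rw [mul_sum]
    _ ≤ 2 * K * 4 := by
        refine mul_le_mul_of_nonneg_left ((ws_sum _).trans ?_) (by positivity)
        have : (0 : ℝ) ≤ 2 / (((⌊D⌋₊ : ℕ) : ℝ) + 1) := by positivity
        linarith
    _ = 8 * K := by ring

end Pool.Agent.Lib.HB
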