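import Pool.Agent.Lib.HB.KF
import Pool.Agent.Lib.HB.WS
import Pool.Agent.Lib.HB.CZ

/-!
# HB / BS (150 lines): one block against one point

PROOF.  `θ = k cz t u k`, `x_u = cz t u (k-1)`, `y_u = cz t u k`, `S = 2s ≥ 1`-type constant `S` of the hypotheses (`V ≤ S H^(k-1)`, `W ≤ S H^k`).
(1) `FK_le` with `M = 2V`: `FK (2V) z ≤ 4 V wt (2V) z ≤ 4 V wt V z` (`wt` is decreasing in `D ≥ 0`).  `wt_shift` (`D = V`, `a = S k`): the difference of the arguments
`x - x_(u+r)` and `x - x_u - r θ` is at most `k r^2 t/u^(k+1) ≤ k H^2 t/N^(k+1) ≤ k H^2/H^(k+1)` (`cz_lin`, `t H^(k+1) ≤ N^(k+1)`), times `V ≤ S H^(k-1)`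
gives `≤ S k`.  (2) `FK (2W) (y - y_(u+r)) ≤ 4 W wt W (y - y_(u+r)) ≤ 4 W · 2 (1 + S^2) wt W (y - y_u)`: `|y_(u+r) - y_u| ≤ r t/u^(k+1) ≤ H/H^(k+1)` (`cz_var`), times `W ≤ S H^k`
gives `≤ S`.  (3) `∑_{r<H} wt V (x - x_u - r θ) ≤ 8 K` by `wt_sum_le` with `K = 1 + RR k V H (cz t u k)`: for every `β` the set
`{r < H : nrm (x - x_u - r θ - β) ≤ 1/V}` is empty or has a least element `r0`, and `r ↦ r - r0` maps the others injectively into
`{1 ≤ d < H : nrm (d θ) ≤ 2/V}` (`nrm_add_le`, `nrm_neg`).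
So the sum is `≤ 4 V · 2 (1 + S^2 k^2) · 4 W · 2 (1 + S^2) wt W (y - y_u) · 8 (1 + RR)`.
-/

set_option autoImplicit false

namespace Pool.Agent.Lib.HB

open Finset Pool.Agent.Lib.ZB

private theorem wt_anti (D D' x : ℝ) (hD : 0 ≤ D) (hDD : D ≤ D') : wt D' x ≤ wt D x := by
  unfold wt
  have h : (D * nrm x) ^ 2 ≤ (D' * nrm x) ^ 2 :=
    pow_le_pow_left₀ (mul_nonneg hD (nrm_nonneg x)) (mul_le_mul_of_nonneg_right hDD (nrm_nonneg x)) 2
  exact one_div_le_one_div_of_le (by positivity) (by linarith)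

private theorem FK_two (M : ℕ) (hM : 1 ≤ M) (z : ℝ) : FK (2 * M) z ≤ 4 * M * wt M z := by
  have h1 := FK_le (2 * M) (by omega) z
  have hM0 : (0 : ℝ) ≤ M := Nat.cast_nonneg M
  have h2 : wt ((2 * M : ℕ) : ℝ) z ≤ wt M z := by
    apply wt_anti _ _ _ hM0
    push_cast
    linarith
  have h3 : 2 * ((2 * M : ℕ) : ℝ) * wt ((2 * M : ℕ) : ℝ) z ≤ 2 * ((2 * M : ℕ) : ℝ) * wt M z :=
    mul_le_mul_of_nonneg_left h2 (by positivity)
  refine h1.trans (h3.trans (le_of_eq ?_))
  push_cast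
  ring

open Classical in
private theorem count_le (k : ℕ) (V : ℝ) (H : ℕ) (y c β : ℝ) :
    (((range H).filter fun r : ℕ => nrm (c - (r : ℝ) * (k * y) - β) ≤ 1 / V).card : ℝ) ≤ 1 + RR k V H y := by
  set F := (range H).filter fun r : ℕ => nrm (c - (r : ℝ) * (k * y) - β) ≤ 1 / V with hF
  rcases F.eq_empty_or_nonempty with h0 | hne
  · rw [h0]
    simp
    positivity
  · set r0 := F.min' hne with hr0
    have hr0m : r0 ∈ F := F.min'_mem hne
    have hle : (F.erase r0).card ≤ RR k V H y := by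
      unfold RR
      apply Finset.card_le_card_of_injOn (fun r => r - r0)
      · intro r hr
        have hr1 : r ∈ F := Finset.mem_of_mem_erase (Finset.mem_coe.mp hr)
        have hr2 : r ≠ r0 := Finset.ne_of_mem_erase (Finset.mem_coe.mp hr)
        have hr3 : r0 ≤ r := F.min'_le r hr1
        rw [Finset.mem_coe, Finset.mem_filter, Finset.mem_Ico]
        have hrH : r < H := Finset.mem_range.mp (Finset.mem_filter.mp hr1).1
        have g1 : 1 ≤ r - r0 := by omega
        have g2 : r - r0 < H := by omega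
        refine ⟨⟨g1, g2⟩, ?_⟩
        have e1 := (Finset.mem_filter.mp hr1).2
        have e2 := (Finset.mem_filter.mp hr0m).2
        have e3 : (((r - r0 : ℕ) : ℝ)) * (k * y) =
            (c - (r0 : ℝ) * (k * y) - β) + (-(c - (r : ℝ) * (k * y) - β)) := by
          rw [Nat.cast_sub hr3]
          ring
        show nrm (((r - r0 : ℕ) : ℝ) * (k * y)) ≤ 2 / V
        rw [e3]
        have e4 := nrm_add_le (c - (r0 : ℝ) * (k * y) - β) (-(c - (r : ℝ) * (k * y) - β))
        rw [nrm_neg] at e4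
        have e5 : (2 : ℝ) / V = 1 / V + 1 / V := by ring
        rw [e5]
        linarith
      · intro a ha b hb hab
        have ha3 : r0 ≤ a := F.min'_le a (Finset.mem_of_mem_erase (Finset.mem_coe.mp ha))
        have hb3 : r0 ≤ b := F.min'_le b (Finset.mem_of_mem_erase (Finset.mem_coe.mp hb))
        simp only at hab
        omega
    have hcard : F.card = (F.erase r0).card + 1 := (Finset.card_erase_add_one hr0m).symm
    rw [hcard]
    push_cast
    have : ((F.erase r0).card : ℝ) ≤ (RR k V H y : ℝ) := by exact_mod_cast hle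
    linarith

theorem blockS (k : ℕ) (hk : 2 ≤ k) (S : ℝ) (hS : 1 ≤ S) : ∃ C : ℝ, 0 ≤ C ∧ ∀ (N u H V W : ℕ) (t x y : ℝ),
    1 ≤ N → N ≤ u → 1 ≤ H → 0 < t → t * (H : ℝ) ^ (k + 1) ≤ (N : ℝ) ^ (k + 1) → 1 ≤ V → 1 ≤ W →
    (V : ℝ) ≤ S * (H : ℝ) ^ (k - 1) → (W : ℝ) ≤ S * (H : ℝ) ^ k →
    ∑ r ∈ range H, FK (2 * V) (x - cz t (u + r) (k - 1)) * FK (2 * W) (y - cz t (u + r) k) ≤
      C * V * W * wt W (y - cz t u k) * (1 + RR k V H (cz t u k)) := by
  classical
  refine ⟨(4 * (2 * (1 + (S * k) ^ 2))) * (4 * (2 * (1 + S ^ 2))) * 8, by positivity, ?_⟩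
  intro N u H V W t x y hN hNu hH ht htH hV hW hVS hWS
  have hN0 : (0 : ℝ) < N := by exact_mod_cast hN
  have hNuR : (N : ℝ) ≤ u := by exact_mod_cast hNu
  have hu0 : (0 : ℝ) < u := lt_of_lt_of_le hN0 hNuR
  have hu1 : 1 ≤ u := le_trans hN hNu
  have hH0 : (0 : ℝ) < H := by exact_mod_cast hH
  have hV0 : (0 : ℝ) < V := by exact_mod_cast hV
  have hW0 : (0 : ℝ) < W := by exact_mod_cast hW
  have hS0 : (0 : ℝ) < S := by linarith
  have hupow : (N : ℝ) ^ (k + 1) ≤ (u : ℝ) ^ (k + 1) := pow_le_pow_left₀ hN0.le hNuR _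
  have htH' : t * (H : ℝ) ^ (k + 1) ≤ (u : ℝ) ^ (k + 1) := htH.trans hupow
  have hup : (0 : ℝ) < (u : ℝ) ^ (k + 1) := by positivity
  have hpow : (H : ℝ) ^ (k - 1) * (H : ℝ) ^ 2 = (H : ℝ) ^ (k + 1) := by
    rw [← pow_add]
    congr 1
    omega
  have hA : ∀ r ∈ range H, FK (2 * V) (x - cz t (u + r) (k - 1)) ≤
      4 * (2 * (1 + (S * k) ^ 2)) * V * wt V (x - cz t u (k - 1) - (r : ℝ) * (k * cz t u k)) := by
    intro r hr
    have hrH : (r : ℝ) ≤ H := by exact_mod_cast (Finset.mem_range.mp hr).le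
    have hr0 : (0 : ℝ) ≤ r := Nat.cast_nonneg r
    have h1 := FK_two V hV (x - cz t (u + r) (k - 1))
    have h2 : (V : ℝ) * |(x - cz t (u + r) (k - 1)) - (x - cz t u (k - 1) - (r : ℝ) * (k * cz t u k))| ≤ S * k := by
      have e1 : (x - cz t (u + r) (k - 1)) - (x - cz t u (k - 1) - (r : ℝ) * (k * cz t u k)) =
          -(cz t (u + r) (k - 1) - cz t u (k - 1) - (r : ℝ) * (k * cz t u k)) := by ring
      rw [e1, abs_neg]
      have e2 := cz_lin t ht.le k u r hk hu1
      have e3 : (k : ℝ) * (r : ℝ) ^ 2 * t / (u : ℝ) ^ (k + 1) ≤ k * (H : ℝ) ^ 2 * t / (u : ℝ) ^ (k + 1) := by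
        apply div_le_div_of_nonneg_right _ hup.le
        apply mul_le_mul_of_nonneg_right _ ht.le
        apply mul_le_mul_of_nonneg_left _ (Nat.cast_nonneg k)
        exact pow_le_pow_left₀ hr0 hrH 2
      calc (V : ℝ) * |cz t (u + r) (k - 1) - cz t u (k - 1) - (r : ℝ) * (k * cz t u k)|
          ≤ (S * (H : ℝ) ^ (k - 1)) * (k * (H : ℝ) ^ 2 * t / (u : ℝ) ^ (k + 1)) :=
            mul_le_mul hVS (e2.trans e3) (abs_nonneg _) (by positivity)
        _ = S * k * (t * ((H : ℝ) ^ (k - 1) * (H : ℝ) ^ 2) / (u : ℝ) ^ (k + 1)) := by ring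
        _ = S * k * (t * (H : ℝ) ^ (k + 1) / (u : ℝ) ^ (k + 1)) := by
            rw [hpow]
        _ ≤ S * k * 1 := by
            apply mul_le_mul_of_nonneg_left _ (by positivity)
            rw [div_le_one hup]
            exact htH'
        _ = S * k := by ring
    have h3 := wt_shift V _ _ (S * k) hV0.le h2
    calc FK (2 * V) (x - cz t (u + r) (k - 1)) ≤ 4 * V * wt V (x - cz t (u + r) (k - 1)) := h1
      _ ≤ 4 * V * (2 * (1 + (S * k) ^ 2) * wt V (x - cz t u (k - 1) - (r : ℝ) * (k * cz t u k))) :=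
          mul_le_mul_of_nonneg_left h3 (by positivity)
      _ = _ := by ring
  have hB : ∀ r ∈ range H, FK (2 * W) (y - cz t (u + r) k) ≤
      4 * (2 * (1 + S ^ 2)) * W * wt W (y - cz t u k) := by
    intro r hr
    have hrH : (r : ℝ) ≤ H := by exact_mod_cast (Finset.mem_range.mp hr).le
    have hr0 : (0 : ℝ) ≤ r := Nat.cast_nonneg r
    have h1 := FK_two W hW (y - cz t (u + r) k)
    have h2 : (W : ℝ) * |(y - cz t (u + r) k) - (y - cz t u k)| ≤ S := by
      have e1 : (y - cz t (u + r) k) - (y - cz t u k) = -(cz t (u + r) k - cz t u k) := by ring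
      rw [e1, abs_neg]
      have e2 := cz_var t ht.le k u (u + r) (by omega) hu1 (by omega)
      have e3 : (((u + r : ℕ) : ℝ) - u) * t / (u : ℝ) ^ (k + 1) ≤ (H : ℝ) * t / (u : ℝ) ^ (k + 1) := by
        apply div_le_div_of_nonneg_right _ hup.le
        apply mul_le_mul_of_nonneg_right _ ht.le
        push_cast
        linarith
      calc (W : ℝ) * |cz t (u + r) k - cz t u k|
          ≤ (S * (H : ℝ) ^ k) * ((H : ℝ) * t / (u : ℝ) ^ (k + 1)) :=
            mul_le_mul hWS (e2.trans e3) (abs_nonneg _) (by positivity)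
        _ = S * (t * (H : ℝ) ^ (k + 1) / (u : ℝ) ^ (k + 1)) := by ring
        _ ≤ S * 1 := by
            apply mul_le_mul_of_nonneg_left _ hS0.le
            rw [div_le_one hup]
            exact htH'
        _ = S := by ring
    have h3 := wt_shift W _ _ S hW0.le h2
    calc FK (2 * W) (y - cz t (u + r) k) ≤ 4 * W * wt W (y - cz t (u + r) k) := h1
      _ ≤ 4 * W * (2 * (1 + S ^ 2) * wt W (y - cz t u k)) :=
          mul_le_mul_of_nonneg_left h3 (by positivity)
      _ = _ := by ring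
  have hC : ∑ r ∈ range H, wt V (x - cz t u (k - 1) - (r : ℝ) * (k * cz t u k)) ≤
      8 * (1 + RR k V H (cz t u k)) := by
    apply wt_sum_le (range H) (fun r => x - cz t u (k - 1) - (r : ℝ) * (k * cz t u k)) V (by exact_mod_cast hV)
    intro β
    exact count_le k V H (cz t u k) (x - cz t u (k - 1)) β
  have hw0 := (wt_pos W (y - cz t u k)).le
  calc ∑ r ∈ range H, FK (2 * V) (x - cz t (u + r) (k - 1)) * FK (2 * W) (y - cz t (u + r) k)
      ≤ ∑ r ∈ range H, (4 * (2 * (1 + (S * k) ^ 2)) * V * wt V (x - cz t u (k - 1) - (r : ℝ) * (k * cz t u k))) *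
          (4 * (2 * (1 + S ^ 2)) * W * wt W (y - cz t u k)) := by
        apply Finset.sum_le_sum
        intro r hr
        apply mul_le_mul (hA r hr) (hB r hr) (FK_nonneg _ _)
        have := (wt_pos V (x - cz t u (k - 1) - (r : ℝ) * (k * cz t u k))).le
        positivity
    _ = ((4 * (2 * (1 + (S * k) ^ 2))) * (4 * (2 * (1 + S ^ 2))) * V * W * wt W (y - cz t u k)) *
          ∑ r ∈ range H, wt V (x - cz t u (k - 1) - (r : ℝ) * (k * cz t u k)) := by
        rw [Finset.mul_sum]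
        apply Finset.sum_congr rfl
        intro r _
        ring
    _ ≤ ((4 * (2 * (1 + (S * k) ^ 2))) * (4 * (2 * (1 + S ^ 2))) * V * W * wt W (y - cz t u k)) *
          (8 * (1 + RR k V H (cz t u k))) := by
        apply mul_le_mul_of_nonneg_left hC
        positivity
    _ = _ := by ring

end Pool.Agent.Lib.HB
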