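import Pool.Agent.Lib.ZB.Defs

/-!
# HB: the q-th derivative estimate of Heath-Brown for `n^(-it)`, definitions

`nrm x`: distance to the nearest integer; `FK M x = (1/M) |∑_{v<M} e(vx)|^2` (Fejér kernel);
`wt D x = 1/(1 + (D nrm x)^2)`; `RR k V H y = #{1 ≤ d < H : nrm (d k y) ≤ 2/V}`.
`lam = t/N^(k+1)`, `k = q - 1`, `s = k(k+1)/2`, `V = s H^(k-1)`, `W = s H^k`, `x_n = cz t n (k-1)`, `y_n = cz t n k`.
-/

set_option autoImplicit false

namespace Pool.Agent.Lib.HB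

open Finset Pool.Agent.Lib.ZB

/-- distance to the nearest integer -/
noncomputable def nrm (x : ℝ) : ℝ := |x - round x|

/-- Fejér kernel -/
noncomputable def FK (M : ℕ) (x : ℝ) : ℝ := ‖∑ v ∈ range M, e ((v : ℝ) * x)‖ ^ 2 / M

/-- the weight -/
noncomputable def wt (D x : ℝ) : ℝ := 1 / (1 + (D * nrm x) ^ 2)

open Classical in
/-- number of `1 ≤ d < H` with `nrm (d k y) ≤ 2/V` -/
noncomputable def RR (k : ℕ) (V : ℝ) (H : ℕ) (y : ℝ) : ℕ :=
  ((Finset.Ico 1 H).filter fun d : ℕ => nrm ((d : ℝ) * (k * y)) ≤ 2 / V).card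

theorem nrm_nonneg (x : ℝ) : 0 ≤ nrm x := abs_nonneg _

theorem nrm_le_half (x : ℝ) : nrm x ≤ 1 / 2 := abs_sub_round x

theorem nrm_le_abs (x : ℝ) (m : ℤ) : nrm x ≤ |x - m| := round_le x m

theorem exists_int_nrm (x : ℝ) : ∃ m : ℤ, nrm x = |x - m| := ⟨round x, rfl⟩

theorem nrm_neg (x : ℝ) : nrm (-x) = nrm x := by
  apply le_antisymm
  · obtain ⟨m, hm⟩ := exists_int_nrm x
    rw [hm]
    refine (nrm_le_abs _ (-m)).trans (le_of_eq ?_)
    rw [← abs_neg]
    congr 1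
    push_cast
    ring
  · obtain ⟨m, hm⟩ := exists_int_nrm (-x)
    rw [hm]
    refine (nrm_le_abs _ (-m)).trans (le_of_eq ?_)
    rw [← abs_neg]
    congr 1
    push_cast
    ring

theorem nrm_add_le (x y : ℝ) : nrm (x + y) ≤ nrm x + nrm y := by
  obtain ⟨m, hm⟩ := exists_int_nrm x
  obtain ⟨l, hl⟩ := exists_int_nrm y
  rw [hm, hl]
  refine (nrm_le_abs _ (m + l)).trans ?_
  have : x + y - ((m + l : ℤ) : ℝ) = (x - m) + (y - l) := by
    push_cast
    ring
  rw [this]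
  exact abs_add_le _ _

theorem nrm_le_abs_self (x : ℝ) : nrm x ≤ |x| := by
  have := nrm_le_abs x 0
  simpa using this

theorem nrm_sub_comm (x y : ℝ) : nrm (x - y) = nrm (y - x) := by
  rw [← nrm_neg]
  congr 1
  ring

theorem nrm_le_add_abs (x y : ℝ) : nrm x ≤ nrm y + |x - y| := by
  have h : x = y + (x - y) := by ring
  calc nrm x = nrm (y + (x - y)) := by rw [← h]
    _ ≤ nrm y + nrm (x - y) := nrm_add_le _ _
    _ ≤ nrm y + |x - y| := by linarith [nrm_le_abs_self (x - y)]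

theorem wt_pos (D x : ℝ) : 0 < wt D x := by
  unfold wt
  positivity

theorem wt_le_one (D x : ℝ) : wt D x ≤ 1 := by
  unfold wt
  rw [div_le_one (by positivity)]
  nlinarith [sq_nonneg (D * nrm x)]

theorem FK_nonneg (M : ℕ) (x : ℝ) : 0 ≤ FK M x := by
  unfold FK
  positivity

/-- weights at points at distance `a/D` are comparable -/
theorem wt_shift (D x y a : ℝ) (hD : 0 ≤ D) (h : D * |x - y| ≤ a) :
    wt D x ≤ 2 * (1 + a ^ 2) * wt D y := by
  have h1 : D * nrm y ≤ D * nrm x + a := by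
    have := nrm_le_add_abs y x
    rw [abs_sub_comm] at this
    nlinarith [mul_le_mul_of_nonneg_left this hD]
  have h0 : 0 ≤ D * nrm y := mul_nonneg hD (nrm_nonneg _)
  have h2 : 0 ≤ D * nrm x := mul_nonneg hD (nrm_nonneg _)
  have h3 : (D * nrm y) ^ 2 ≤ 2 * (D * nrm x) ^ 2 + 2 * a ^ 2 := by
    have : (D * nrm y) ^ 2 ≤ (D * nrm x + a) ^ 2 := by
      apply pow_le_pow_left₀ h0 h1
    nlinarith [sq_nonneg (D * nrm x - a)]
  unfold wt
  rw [mul_one_div, div_le_div_iff₀ (by positivity) (by positivity)]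
  nlinarith [sq_nonneg (D * nrm x), sq_nonneg a, mul_nonneg (sq_nonneg a) (sq_nonneg (D * nrm x))]

end Pool.Agent.Lib.HB
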