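import Pool.Agent.Lib.HB.CM
import Pool.Agent.Lib.HB.CZ

/-!
# HB / SR (150 lines): the second coordinate, summed over the blocks

PROOF.  Exchange the sums: `∑_{u<U} RR k V H y_u = ∑_{1 ≤ d < H} #{u < U : nrm (d (k y_u)) ≤ 2/V}`, `y_u = cz t (N+1+uH) k`.  For fixed `d` use `count_mono` with
`z u = d k y_u`, `β = 0`, `σ = (-1)^(k+1)`, `ρ = 2/V ≤ 2`, `R = d t/N^k` (`cz_abs`: `d k t/(k N^k)`), and
`mu = d k H t/(2 π (4N)^(k+1))` (`cz_gap` with `m - n = H`, `m = N + 1 + (u+1) H ≤ N + 1 + U H ≤ 4N`).  So the number is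
`≤ (d t/N^k + 5)(1 + (4/V)/mu)`, `(4/V)/mu ≤ 4 · 2 π 4^(k+1) N^(k+1)/(d H t H^(k-1)) ≤ C H/d` (`N^(k+1) ≤ t (2H)^(k+1)`), hence
`≤ C (1 + d t/N^k)(1 + H/d) = C (1 + H/d + d t/N^k + H t/N^k)`.  Sum over `1 ≤ d < H` (harmonic sum `≤ 1 + log H`):
`≤ C (H + H (1 + log H) + H^2 t/N^k + H^2 t/N^k)`.
-/

set_option autoImplicit false

namespace Pool.Agent.Lib.HB

open Finset Pool.Agent.Lib.ZB

/-- harmonic sum -/
private theorem sr_harm (H : ℕ) : ∑ d ∈ Ico 1 H, (1 : ℝ) / d ≤ 1 + Real.log H := by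
  have h1 : ∑ d ∈ Ico 1 H, (1 : ℝ) / d ≤ ∑ d ∈ Icc 1 H, (1 : ℝ) / d := by
    apply sum_le_sum_of_subset_of_nonneg
    · intro d hd
      rw [mem_Ico] at hd
      rw [mem_Icc]
      omega
    · intro d _ _
      positivity
  have h2 : ∑ d ∈ Icc 1 H, (1 : ℝ) / d = ((harmonic H : ℚ) : ℝ) := by
    rw [harmonic_eq_sum_Icc]
    push_cast
    apply sum_congr rfl
    intro d _
    rw [one_div]
  calc ∑ d ∈ Ico 1 H, (1 : ℝ) / d ≤ ∑ d ∈ Icc 1 H, (1 : ℝ) / d := h1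
    _ = ((harmonic H : ℚ) : ℝ) := h2
    _ ≤ 1 + Real.log H := harmonic_le_one_add_log H

open Classical in
/-- exchange of the sums -/
private theorem sr_swap (k U H : ℕ) (V : ℝ) (y : ℕ → ℝ) :
    ∑ u ∈ range U, (RR k V H (y u) : ℝ) =
      ∑ d ∈ Ico 1 H, (((range U).filter fun u => nrm ((d : ℝ) * (k * y u) - 0) ≤ 2 / V).card : ℝ) := by
  have h1 : ∀ u, (RR k V H (y u) : ℝ) = ∑ d ∈ Ico 1 H, if nrm ((d : ℝ) * (k * y u)) ≤ 2 / V then (1 : ℝ) else 0 := by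
    intro u
    unfold RR
    rw [card_filter]
    push_cast
    rfl
  have h2 : ∀ d : ℕ, (((range U).filter fun u => nrm ((d : ℝ) * (k * y u) - 0) ≤ 2 / V).card : ℝ) =
      ∑ u ∈ range U, if nrm ((d : ℝ) * (k * y u)) ≤ 2 / V then (1 : ℝ) else 0 := by
    intro d
    rw [card_filter]
    push_cast
    simp only [sub_zero]
  simp_rw [h1, h2]
  exact sum_comm

/-- one `d` -/
private theorem sr_one (k : ℕ) (hk : 2 ≤ k) (N U H : ℕ) (V t : ℝ) (hN : 1 ≤ N) (hH : 1 ≤ H) (hUH : U * H ≤ 2 * N)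
    (ht : 0 < t) (hNt : (N : ℝ) ^ (k + 1) ≤ t * (2 * (H : ℝ)) ^ (k + 1)) (hV : (H : ℝ) ^ (k - 1) ≤ V) (d : ℕ) (hd : 1 ≤ d) :
    (((open Classical in (range U).filter fun u => nrm ((d : ℝ) * (k * cz t (N + 1 + u * H) k) - 0) ≤ 2 / V).card : ℕ) : ℝ) ≤
      ((d : ℝ) * (t / (N : ℝ) ^ k) + 5) * (1 + 8 * Real.pi * 8 * 8 ^ k * ((H : ℝ) / d)) := by
  have hN' : (1 : ℝ) ≤ N := by exact_mod_cast hN
  have hH' : (1 : ℝ) ≤ H := by exact_mod_cast hH
  have hd' : (1 : ℝ) ≤ d := by exact_mod_cast hd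
  have hk' : (2 : ℝ) ≤ k := by exact_mod_cast hk
  have hpi : (0 : ℝ) < Real.pi := Real.pi_pos
  have hHk : (1 : ℝ) ≤ (H : ℝ) ^ (k - 1) := one_le_pow₀ hH'
  have hV1 : 1 ≤ V := hHk.trans hV
  have hV0 : 0 < V := by linarith
  have hρ0 : 0 ≤ 2 / V := by positivity
  have hρ2 : 2 / V ≤ 2 := by
    rw [div_le_iff₀ hV0]
    linarith
  set mu : ℝ := (d : ℝ) * (k * (t * H / (2 * Real.pi * (4 * (N : ℝ)) ^ (k + 1)))) with hmudef
  have hmu : 0 < mu := by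
    rw [hmudef]
    positivity
  set R : ℝ := (d : ℝ) * (t / (N : ℝ) ^ k) with hRdef
  have hR0 : 0 ≤ R := by
    rw [hRdef]
    positivity
  have hσ : ((-1 : ℝ) ^ (k + 1)) = 1 ∨ ((-1 : ℝ) ^ (k + 1)) = -1 := neg_one_pow_eq_or ℝ (k + 1)
  have hgap : ∀ u, u + 1 < U → mu ≤ (-1 : ℝ) ^ (k + 1) *
      ((d : ℝ) * (k * cz t (N + 1 + (u + 1) * H) k) - (d : ℝ) * (k * cz t (N + 1 + u * H) k)) := by
    intro u hu
    have h1 := cz_gap t ht.le k (N + 1 + u * H) (N + 1 + (u + 1) * H) (by omega) (by omega)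
      (by nlinarith)
    have h2 : (((N + 1 + (u + 1) * H : ℕ) : ℝ) - ((N + 1 + u * H : ℕ) : ℝ)) = H := by
      push_cast
      ring
    rw [h2] at h1
    have h3 : (N + 1 + (u + 1) * H) ≤ 4 * N := by
      have : (u + 1) * H ≤ U * H := Nat.mul_le_mul_right H hu.le
      omega
    have h4 : ((N + 1 + (u + 1) * H : ℕ) : ℝ) ≤ 4 * N := by exact_mod_cast h3
    have h5 : (0 : ℝ) < ((N + 1 + (u + 1) * H : ℕ) : ℝ) := by
      have : 0 < N + 1 + (u + 1) * H := by omega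
      exact_mod_cast this
    have h6 : t * H / (2 * Real.pi * (4 * (N : ℝ)) ^ (k + 1)) ≤ t * H / (2 * Real.pi * (((N + 1 + (u + 1) * H : ℕ) : ℝ)) ^ (k + 1)) := by
      apply div_le_div_of_nonneg_left
      · positivity
      · positivity
      · apply mul_le_mul_of_nonneg_left
        · exact pow_le_pow_left₀ h5.le h4 _
        · positivity
    have h7 := h6.trans h1
    calc mu = (d : ℝ) * (k * (t * H / (2 * Real.pi * (4 * (N : ℝ)) ^ (k + 1)))) := hmudef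
      _ ≤ (d : ℝ) * (k * ((-1 : ℝ) ^ (k + 1) * (cz t (N + 1 + (u + 1) * H) k - cz t (N + 1 + u * H) k))) := by
        apply mul_le_mul_of_nonneg_left _ (by positivity)
        exact mul_le_mul_of_nonneg_left h7 (by positivity)
      _ = _ := by ring
  have hRb : ∀ u < U, |(d : ℝ) * (k * cz t (N + 1 + u * H) k) - (d : ℝ) * (k * cz t (N + 1 + 0 * H) k)| ≤ R := by
    intro u _
    have h1 := cz_abs t ht.le k N (N + 1 + 0 * H) (N + 1 + u * H) (by omega) hN (by omega) (by omega)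
    have h2 : (d : ℝ) * (k * cz t (N + 1 + u * H) k) - (d : ℝ) * (k * cz t (N + 1 + 0 * H) k) =
        ((d : ℝ) * k) * (cz t (N + 1 + u * H) k - cz t (N + 1 + 0 * H) k) := by ring
    rw [h2, abs_mul, abs_of_nonneg (by positivity : (0 : ℝ) ≤ (d : ℝ) * k)]
    calc (d : ℝ) * k * |cz t (N + 1 + u * H) k - cz t (N + 1 + 0 * H) k|
        ≤ (d : ℝ) * k * (t / (k * (N : ℝ) ^ k)) := mul_le_mul_of_nonneg_left h1 (by positivity)
      _ = R := by
        rw [hRdef]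
        field_simp
  have hc := count_mono U (fun u => (d : ℝ) * (k * cz t (N + 1 + u * H) k)) ((-1 : ℝ) ^ (k + 1)) hσ mu R (2 / V)
    hmu hR0 hρ0 hgap hRb 0
  refine hc.trans ?_
  have hA : R + 2 * (2 / V) + 1 ≤ R + 5 := by linarith
  have hB : 2 * (2 / V) / mu ≤ 8 * Real.pi * 8 * 8 ^ k * ((H : ℝ) / d) := by
    rw [div_le_iff₀ hmu]
    -- `4/V ≤ C (H/d) mu`
    have e1 : 8 * Real.pi * 8 * 8 ^ k * ((H : ℝ) / d) * mu =
        (k : ℝ) * (4 * 8 * 8 ^ k * (H * (t * H) / (4 * (N : ℝ)) ^ (k + 1))) := by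
      rw [hmudef]
      field_simp
      ring
    rw [e1]
    have e2 : (4 : ℝ) * (N : ℝ) ^ (k + 1) ≤ 4 * (t * (2 * (H : ℝ)) ^ (k + 1)) := by linarith
    have e3 : (H : ℝ) ^ (k + 1) = (H : ℝ) ^ (k - 1) * (H * H) := by
      have : k + 1 = (k - 1) + 2 := by omega
      rw [this, pow_add]
      ring
    have e4 : (8 : ℝ) * 8 ^ k = 4 ^ (k + 1) * 2 ^ (k + 1) := by
      rw [← mul_pow]
      norm_num
      ring
    have e5 : 4 / V ≤ 4 / (H : ℝ) ^ (k - 1) := by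
      apply div_le_div_of_nonneg_left (by norm_num) (by linarith) hV
    have e6 : 4 / (H : ℝ) ^ (k - 1) ≤ 4 * 8 * 8 ^ k * (H * (t * H) / (4 * (N : ℝ)) ^ (k + 1)) := by
      rw [div_le_iff₀ (by linarith)]
      have e7 : 4 * 8 * 8 ^ k * (H * (t * H) / (4 * (N : ℝ)) ^ (k + 1)) * (H : ℝ) ^ (k - 1) =
          4 * (t * (2 * (H : ℝ)) ^ (k + 1)) / (N : ℝ) ^ (k + 1) := by
        rw [mul_assoc 4 8, e4, mul_pow 4 (N : ℝ), mul_pow 2 (H : ℝ), e3]
        field_simp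
      rw [e7, le_div_iff₀ (by positivity)]
      exact e2
    have e8 : 0 ≤ 4 * 8 * 8 ^ k * (H * (t * H) / (4 * (N : ℝ)) ^ (k + 1)) := by positivity
    calc 2 * (2 / V) = 4 / V := by ring
      _ ≤ 4 / (H : ℝ) ^ (k - 1) := e5
      _ ≤ 1 * (4 * 8 * 8 ^ k * (H * (t * H) / (4 * (N : ℝ)) ^ (k + 1))) := by
        rw [one_mul]
        exact e6
      _ ≤ (k : ℝ) * (4 * 8 * 8 ^ k * (H * (t * H) / (4 * (N : ℝ)) ^ (k + 1))) := by
        apply mul_le_mul_of_nonneg_right _ e8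
        linarith
  apply mul_le_mul hA
  · linarith
  · have : 0 ≤ 2 * (2 / V) / mu := by positivity
    linarith
  · linarith

theorem sumR (k : ℕ) (hk : 2 ≤ k) : ∃ C : ℝ, 0 ≤ C ∧ ∀ (N U H : ℕ) (V t : ℝ), 1 ≤ N → 1 ≤ H → U * H ≤ 2 * N → 0 < t →
    (N : ℝ) ^ (k + 1) ≤ t * (2 * (H : ℝ)) ^ (k + 1) → (H : ℝ) ^ (k - 1) ≤ V →
    ∑ u ∈ range U, (RR k V H (cz t (N + 1 + u * H) k) : ℝ) ≤
      C * (H * (1 + Real.log H) + (H : ℝ) ^ 2 * (t / (N : ℝ) ^ k)) := by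
  refine ⟨5 + 5 * (8 * Real.pi * 8 * 8 ^ k), by positivity, ?_⟩
  intro N U H V t hN hH hUH ht hNt hV
  set C0 : ℝ := 8 * Real.pi * 8 * 8 ^ k with hC0
  have hC0' : 0 ≤ C0 := by
    rw [hC0]
    positivity
  set T : ℝ := t / (N : ℝ) ^ k with hT
  have hT0 : 0 ≤ T := by
    rw [hT]
    positivity
  have hH' : (1 : ℝ) ≤ H := by exact_mod_cast hH
  have hlog : 0 ≤ Real.log H := Real.log_nonneg hH'
  rw [sr_swap k U H V (fun u => cz t (N + 1 + u * H) k)]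
  calc ∑ d ∈ Ico 1 H, (((open Classical in (range U).filter fun u =>
        nrm ((d : ℝ) * (k * cz t (N + 1 + u * H) k) - 0) ≤ 2 / V).card : ℕ) : ℝ)
      ≤ ∑ d ∈ Ico 1 H, ((H : ℝ) * T + 5 + C0 * (H * T) + 5 * C0 * H * (1 / d)) := by
        apply sum_le_sum
        intro d hd
        rw [mem_Ico] at hd
        have hd1 : (1 : ℝ) ≤ d := by exact_mod_cast hd.1
        have hdH : (d : ℝ) ≤ H := by exact_mod_cast hd.2.le
        refine (sr_one k hk N U H V t hN hH hUH ht hNt hV d hd.1).trans ?_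
        rw [← hC0, ← hT]
        have e1 : ((d : ℝ) * T + 5) * (1 + C0 * ((H : ℝ) / d)) =
            (d : ℝ) * T + 5 + C0 * (H * T) + 5 * C0 * H * (1 / d) := by
          field_simp
          ring
        rw [e1]
        have e2 : (d : ℝ) * T ≤ H * T := mul_le_mul_of_nonneg_right hdH hT0
        linarith
    _ = ((Ico 1 H).card : ℝ) * ((H : ℝ) * T + 5 + C0 * (H * T)) + 5 * C0 * H * ∑ d ∈ Ico 1 H, (1 : ℝ) / d := by
        rw [sum_add_distrib, sum_const, nsmul_eq_mul, ← mul_sum]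
    _ ≤ (H : ℝ) * ((H : ℝ) * T + 5 + C0 * (H * T)) + 5 * C0 * H * (1 + Real.log H) := by
        have e1 : ((Ico 1 H).card : ℝ) ≤ H := by
          rw [Nat.card_Ico]
          exact_mod_cast Nat.sub_le H 1
        have e2 : 0 ≤ (H : ℝ) * T + 5 + C0 * (H * T) := by positivity
        exact add_le_add (mul_le_mul_of_nonneg_right e1 e2)
          (mul_le_mul_of_nonneg_left (sr_harm H) (by positivity))
    _ ≤ (5 + 5 * C0) * (H * (1 + Real.log H) + (H : ℝ) ^ 2 * T) := by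
        have e1 : 0 ≤ (H : ℝ) * Real.log H := by positivity
        have e2 : 0 ≤ (H : ℝ) ^ 2 * T := by positivity
        have e3 : 0 ≤ C0 * ((H : ℝ) ^ 2 * T) := by positivity
        nlinarith

end Pool.Agent.Lib.HB
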