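import Pool.Agent.Lib.HB.WS
import Pool.Agent.Lib.HB.CM
import Pool.Agent.Lib.HB.CZ

/-!
# HB / SY (100 lines): the weights summed over the points of the interval

PROOF.  `wt_sum_le` with `A = Ioc N M`, `z n = cz t n k - β`, `D = W`; for every `β'` count the `n ∈ (N, M]` with `nrm (cz t n k - β - β') ≤ 1/W` by `count_mono`
with `U = M - N`, `z u = cz t (N+1+u) k`, `σ = (-1)^(k+1)`, `mu = t/(2 π (2N)^(k+1))` (`cz_gap`, `N + 1 + u + 1 ≤ M ≤ 2N`), `R = t/N^k` (`cz_abs`), `ρ = 1/W ≤ 1`: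
`≤ (t/N^k + 3)(1 + (2/W)/mu)`, and `(2/W)/mu = 4 π 2^(k+1) N^(k+1)/(t W) ≤ 4 π 2^(k+1) (2H)^(k+1)/H^k = 4 π 4^(k+1) H`.
-/

set_option autoImplicit false

namespace Pool.Agent.Lib.HB

open Finset Pool.Agent.Lib.ZB

/-- the count of the points of the interval near the integers -/
private theorem sy_count (k : ℕ) (hk : 1 ≤ k) (N M : ℕ) (t β ρ : ℝ) (hN : 1 ≤ N) (hM : M ≤ 2 * N) (ht : 0 < t) (hρ : 0 ≤ ρ) :
    open Classical in
    (((Ioc N M).filter fun n : ℕ => nrm (cz t n k - β) ≤ ρ).card : ℝ) ≤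
      (t / (N : ℝ) ^ k + 2 * ρ + 1) * (1 + 2 * ρ / (t / (2 * Real.pi * (2 * (N : ℝ)) ^ (k + 1)))) := by
  classical
  have hNr : (1 : ℝ) ≤ N := by exact_mod_cast hN
  have hN0 : (0 : ℝ) < N := by linarith
  have hpi := Real.pi_pos
  have h1 := count_mono (M - N) (fun u : ℕ => cz t (N + 1 + u : ℕ) k) ((-1 : ℝ) ^ (k + 1)) (neg_one_pow_eq_or ℝ (k + 1))
    (t / (2 * Real.pi * (2 * (N : ℝ)) ^ (k + 1))) (t / (N : ℝ) ^ k) ρ (by positivity) (by positivity) hρ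
    (by
      intro u hu
      have h2 := cz_gap t ht.le k (N + 1 + u) (N + 1 + (u + 1)) hk (by omega) (by omega)
      refine le_trans ?_ h2
      have h3 : ((N + 1 + (u + 1) : ℕ) : ℝ) - ((N + 1 + u : ℕ) : ℝ) = 1 := by
        push_cast
        ring
      rw [h3, mul_one]
      have h4 : ((N + 1 + (u + 1) : ℕ) : ℝ) ≤ 2 * (N : ℝ) := by
        have : N + 1 + (u + 1) ≤ 2 * N := by omega
        exact_mod_cast this
      have h5 : (0 : ℝ) < ((N + 1 + (u + 1) : ℕ) : ℝ) := by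
        have : 0 < N + 1 + (u + 1) := by omega
        exact_mod_cast this
      refine div_le_div_of_nonneg_left ht.le (by positivity) ?_
      exact mul_le_mul_of_nonneg_left (pow_le_pow_left₀ h5.le h4 _) (by positivity))
    (by
      intro u _
      have h2 := cz_abs t ht.le k N (N + 1 + 0) (N + 1 + u) hk hN (by omega) (by omega)
      refine h2.trans ?_
      have h3 : (1 : ℝ) ≤ k := by exact_mod_cast hk
      have h4 : (0 : ℝ) < (N : ℝ) ^ k := by positivity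
      refine div_le_div_of_nonneg_left ht.le h4 ?_
      nlinarith)
    β
  refine le_trans ?_ h1
  have h6 : ((Ioc N M).filter fun n : ℕ => nrm (cz t n k - β) ≤ ρ) ⊆
      ((range (M - N)).filter fun u : ℕ => nrm (cz t (N + 1 + u : ℕ) k - β) ≤ ρ).image fun u => N + 1 + u := by
    intro n hn
    rw [mem_filter, mem_Ioc] at hn
    rw [mem_image]
    refine ⟨n - (N + 1), ?_, by omega⟩
    have h7 : N + 1 + (n - (N + 1)) = n := by omega
    rw [mem_filter, mem_range, h7]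
    exact ⟨by omega, hn.2⟩
  have h8 := (card_le_card h6).trans card_image_le
  exact_mod_cast h8

theorem sumY (k : ℕ) (hk : 1 ≤ k) : ∃ C : ℝ, 0 ≤ C ∧ ∀ (N M H : ℕ) (W t β : ℝ), 1 ≤ N → M ≤ 2 * N → 1 ≤ H → 0 < t →
    (N : ℝ) ^ (k + 1) ≤ t * (2 * (H : ℝ)) ^ (k + 1) → (H : ℝ) ^ k ≤ W →
    ∑ n ∈ Ioc N M, wt W (cz t n k - β) ≤ C * (1 + t / (N : ℝ) ^ k) * H := by
  classical
  have hpi := Real.pi_pos
  refine ⟨24 * (1 + 4 * Real.pi * 4 ^ (k + 1)), by positivity, ?_⟩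
  intro N M H W t β hN hM hH ht h1 h2
  have hNr : (1 : ℝ) ≤ N := by exact_mod_cast hN
  have hN0 : (0 : ℝ) < N := by linarith
  have hHr : (1 : ℝ) ≤ H := by exact_mod_cast hH
  have hH0 : (0 : ℝ) < H := by linarith
  have hHk : 1 ≤ (H : ℝ) ^ k := one_le_pow₀ hHr
  have hW : 1 ≤ W := hHk.trans h2
  have hW0 : 0 < W := by linarith
  have hρ : 1 / W ≤ 1 := by
    rw [div_le_one hW0]
    exact hW
  have hρ0 : 0 ≤ 1 / W := by positivity
  have hT0 : 0 ≤ t / (N : ℝ) ^ k := by positivity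
  have hK : ∀ β' : ℝ, (((Ioc N M).filter fun n : ℕ => nrm ((cz t n k - β) - β') ≤ 1 / W).card : ℝ) ≤
      (t / (N : ℝ) ^ k + 3) * (1 + 4 * Real.pi * 4 ^ (k + 1) * H) := by
    intro β'
    have h3 := sy_count k hk N M t (β + β') (1 / W) hN hM ht hρ0
    have h4 : ((Ioc N M).filter fun n : ℕ => nrm ((cz t n k - β) - β') ≤ 1 / W) =
        (Ioc N M).filter fun n : ℕ => nrm (cz t n k - (β + β')) ≤ 1 / W := by
      refine filter_congr fun n _ => ?_
      rw [sub_sub]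
    rw [h4]
    refine h3.trans ?_
    have h5 : 2 * (1 / W) / (t / (2 * Real.pi * (2 * (N : ℝ)) ^ (k + 1))) ≤ 4 * Real.pi * 4 ^ (k + 1) * H := by
      have h6 : 2 * (1 / W) / (t / (2 * Real.pi * (2 * (N : ℝ)) ^ (k + 1))) =
          4 * Real.pi * 2 ^ (k + 1) * (N : ℝ) ^ (k + 1) / (t * W) := by
        rw [mul_pow]
        field_simp
        ring
      rw [h6, div_le_iff₀ (by positivity)]
      have h7 : 4 * Real.pi * 2 ^ (k + 1) * (N : ℝ) ^ (k + 1) ≤ 4 * Real.pi * 2 ^ (k + 1) * (t * (2 * (H : ℝ)) ^ (k + 1)) :=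
        mul_le_mul_of_nonneg_left h1 (by positivity)
      have h8 : 4 * Real.pi * 2 ^ (k + 1) * (t * (2 * (H : ℝ)) ^ (k + 1)) = 4 * Real.pi * 4 ^ (k + 1) * H * (t * (H : ℝ) ^ k) := by
        rw [mul_pow, pow_succ (H : ℝ) k]
        have h9 : (4 : ℝ) ^ (k + 1) = 2 ^ (k + 1) * 2 ^ (k + 1) := by
          rw [← mul_pow]
          norm_num
        rw [h9]
        ring
      rw [h8] at h7
      refine h7.trans ?_
      exact mul_le_mul_of_nonneg_left (mul_le_mul_of_nonneg_left h2 ht.le) (by positivity)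
    refine mul_le_mul (by linarith) (by linarith) ?_ (by linarith)
    have h10 : 0 ≤ 2 * (1 / W) / (t / (2 * Real.pi * (2 * (N : ℝ)) ^ (k + 1))) := by positivity
    linarith
  have h11 := wt_sum_le (Ioc N M) (fun n : ℕ => cz t n k - β) W hW _ hK
  refine h11.trans ?_
  have hP : 0 ≤ 4 * Real.pi * 4 ^ (k + 1) := by positivity
  have h12 : t / (N : ℝ) ^ k + 3 ≤ 3 * (1 + t / (N : ℝ) ^ k) := by linarith
  have h13 : 1 + 4 * Real.pi * 4 ^ (k + 1) * H ≤ (1 + 4 * Real.pi * 4 ^ (k + 1)) * H := by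
    rw [add_mul, one_mul]
    linarith
  have h14 : (t / (N : ℝ) ^ k + 3) * (1 + 4 * Real.pi * 4 ^ (k + 1) * H) ≤
      3 * (1 + t / (N : ℝ) ^ k) * ((1 + 4 * Real.pi * 4 ^ (k + 1)) * H) :=
    mul_le_mul h12 h13 (by positivity) (by positivity)
  calc 8 * ((t / (N : ℝ) ^ k + 3) * (1 + 4 * Real.pi * 4 ^ (k + 1) * H))
      ≤ 8 * (3 * (1 + t / (N : ℝ) ^ k) * ((1 + 4 * Real.pi * 4 ^ (k + 1)) * H)) := by linarith
    _ = 24 * (1 + 4 * Real.pi * 4 ^ (k + 1)) * (1 + t / (N : ℝ) ^ k) * H := by ring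

end Pool.Agent.Lib.HB
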