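import Pool.Agent.Lib.HB.KT
import Pool.Agent.Lib.HB.BS
import Pool.Agent.Lib.HB.SY
import Pool.Agent.Lib.HB.SR

/-!
# HB / KK (180 lines): the two-dimensional mean square

PROOF.  `s = k (k+1)/2 ≥ 1`, `V = s H^(k-1) + 1`, `W = s H^k + 1`, `S = 2s` (so `H^(k-1) ≤ V ≤ S H^(k-1)`, `H^k ≤ W ≤ S H^k`).  `two_dim`: the left side is
`≤ 4 ∑_n ∑_m FK (2V) (x_n - x_m) FK (2W) (y_n - y_m)`.  The `m ∈ (N, M]` are among the `N + 1 + uH + r`, `u < U`, `r < H`, `U = (M - N + H - 1)/H`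
(`U H ≤ M - N + H - 1 ≤ 2N`, all terms are `≥ 0`), so by `blockS` (`u := N + 1 + uH ≥ N`) the inner sum is
`≤ C V W ∑_{u<U} wt W (y_n - y_u) (1 + RR_u)`.  Exchange and `sumY` (`wt W (y_n - β)`, `β = y_u`): `∑_n ∑_u ≤ C (1 + t/N^k) H (U + ∑_u RR_u)`, `U ≤ 2N/H`, `sumR`:
total `≤ C V W (1 + t/N^k)(N + H^2 (1 + log H) + H^3 t/N^k)`.  Now `t H^3 ≤ t H^(k+1) ≤ N^(k+1)`: `H^3 t/N^k ≤ N` and `H^2 t/N^k ≤ N`; so
`(1 + t/N^k)(2N + H^2) (1 + log H) ≤ (2N + H^2 + 2 t/N^(k-1) + N)(1 + log N)` (`H ≤ N`), and `V W ≤ S^2 H^(2k-1)`.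
-/

set_option autoImplicit false

namespace Pool.Agent.Lib.HB

open Finset Pool.Agent.Lib.ZB

private theorem kk_blocks (F : ℕ → ℝ) (hF : ∀ q, 0 ≤ F q) (H U L : ℕ) (h : L ≤ U * H) :
    ∑ q ∈ range L, F q ≤ ∑ u ∈ range U, ∑ r ∈ range H, F (u * H + r) := by
  have h1 : ∑ q ∈ range (U * H), F q = ∑ u ∈ range U, ∑ r ∈ range H, F (u * H + r) := by
    clear h
    induction U with
    | zero => simp
    | succ U ih =>
      rw [sum_range_succ, ← ih, Nat.succ_mul, sum_range_add]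
  rw [← h1]
  exact sum_le_sum_of_subset_of_nonneg (range_mono h) fun q _ _ => hF q

private theorem kk_Ioc (F : ℕ → ℝ) (N M : ℕ) : ∑ m ∈ Ioc N M, F m = ∑ q ∈ range (M - N), F (N + 1 + q) := by
  have h1 : Ioc N M = Ico (N + 1) (M + 1) := by
    ext x
    simp only [mem_Ioc, mem_Ico]
    omega
  rw [h1, sum_Ico_eq_sum_range]
  have h2 : M + 1 - (N + 1) = M - N := by omega
  rw [h2]

private theorem kk_num {τ N H lN lH UH C3 T : ℝ} (hτ : 0 ≤ τ) (hN : 1 ≤ N) (hH : 1 ≤ H) (hC3 : 0 ≤ C3) (hlH : 0 ≤ lH) (hlN : lH ≤ lN)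
    (h3 : H ^ 3 * τ ≤ N) (hUH : UH ≤ 2 * N) (hT : τ * N = T) :
    (1 + τ) * (UH + C3 * (H ^ 2 * (1 + lH) + H ^ 3 * τ)) ≤ 2 * (2 + C3) * (N + T + H ^ 2) * (1 + lN) := by
  have h2 : H ^ 2 * τ ≤ N := by
    have : H ^ 2 * τ ≤ H ^ 3 * τ := by
      refine mul_le_mul_of_nonneg_right ?_ hτ
      nlinarith [sq_nonneg H]
    linarith
  have hl : 0 ≤ lN := by linarith
  have hH2 : 0 ≤ H ^ 2 := by positivity
  have a1 : UH + C3 * (H ^ 2 * (1 + lH) + H ^ 3 * τ) ≤ (2 + C3) * (N + H ^ 2) * (1 + lN) := by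
    have b1 : H ^ 2 * (1 + lH) ≤ H ^ 2 * (1 + lN) := mul_le_mul_of_nonneg_left (by linarith) hH2
    have b2 : N ≤ N * (1 + lN) := by nlinarith
    have b3 : H ^ 2 * (1 + lH) + H ^ 3 * τ ≤ (N + H ^ 2) * (1 + lN) := by nlinarith
    have b4 : C3 * (H ^ 2 * (1 + lH) + H ^ 3 * τ) ≤ C3 * ((N + H ^ 2) * (1 + lN)) := mul_le_mul_of_nonneg_left b3 hC3
    have b5 : UH ≤ 2 * ((N + H ^ 2) * (1 + lN)) := by nlinarith [mul_nonneg hH2 (by linarith : (0 : ℝ) ≤ 1 + lN)]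
    nlinarith
  have a2 : (1 + τ) * (N + H ^ 2) ≤ 2 * (N + T + H ^ 2) := by
    have : 0 ≤ T := by rw [← hT]; positivity
    nlinarith
  have hC : 0 ≤ (2 + C3) * (1 + lN) := by positivity
  calc (1 + τ) * (UH + C3 * (H ^ 2 * (1 + lH) + H ^ 3 * τ)) ≤ (1 + τ) * ((2 + C3) * (N + H ^ 2) * (1 + lN)) :=
        mul_le_mul_of_nonneg_left a1 (by linarith)
    _ = ((1 + τ) * (N + H ^ 2)) * ((2 + C3) * (1 + lN)) := by ring
    _ ≤ (2 * (N + T + H ^ 2)) * ((2 + C3) * (1 + lN)) := mul_le_mul_of_nonneg_right a2 hC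
    _ = 2 * (2 + C3) * (N + T + H ^ 2) * (1 + lN) := by ring

theorem kernel2 (k : ℕ) (hk : 2 ≤ k) : ∃ C : ℝ, 0 ≤ C ∧ ∀ (N M H : ℕ) (t : ℝ), 1 ≤ N → M ≤ 2 * N → 1 ≤ H → H ≤ N → 0 < t →
    t * (H : ℝ) ^ (k + 1) ≤ (N : ℝ) ^ (k + 1) → (N : ℝ) ^ (k + 1) ≤ t * (2 * (H : ℝ)) ^ (k + 1) →
    ∀ b : ℕ → ℂ, (∀ n, ‖b n‖ ≤ 1) →
    ∑ i ∈ range (k * (k + 1) / 2 * H ^ (k - 1) + 1), ∑ j ∈ range (k * (k + 1) / 2 * H ^ k + 1),
      ‖∑ n ∈ Ioc N M, b n * e ((i : ℝ) * cz t n (k - 1) + (j : ℝ) * cz t n k)‖ ^ 2 ≤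
      C * (H : ℝ) ^ (2 * k - 1) * ((N : ℝ) + t / (N : ℝ) ^ (k - 1) + (H : ℝ) ^ 2) * (1 + Real.log N) := by
  set s : ℕ := k * (k + 1) / 2 with hs
  have hs1 : 1 ≤ s := by
    rw [hs]
    have h1 : 2 * 3 ≤ k * (k + 1) := Nat.mul_le_mul hk (by omega)
    omega
  set S : ℝ := 2 * (s : ℝ) with hS
  have hs1R : (1 : ℝ) ≤ s := by exact_mod_cast hs1
  have hS1 : 1 ≤ S := by rw [hS]; linarith
  obtain ⟨C1, hC1, h1⟩ := blockS k hk S hS1
  obtain ⟨C2, hC2, h2⟩ := sumY k (by omega)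
  obtain ⟨C3, hC3, h3⟩ := sumR k hk
  refine ⟨4 * C1 * C2 * (2 * (2 + C3)) * S ^ 2, by positivity, ?_⟩
  intro N M H t hN hM hH hHN ht ht1 ht2 b hb
  have hNR : (1 : ℝ) ≤ N := by exact_mod_cast hN
  have hHR : (1 : ℝ) ≤ H := by exact_mod_cast hH
  have hHNR : (H : ℝ) ≤ N := by exact_mod_cast hHN
  set V : ℕ := s * H ^ (k - 1) + 1 with hV
  set W : ℕ := s * H ^ k + 1 with hW
  have hV1 : 1 ≤ V := by omega
  have hW1 : 1 ≤ W := by omega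
  have hp1 : (1 : ℝ) ≤ (H : ℝ) ^ (k - 1) := one_le_pow₀ hHR
  have hp2 : (1 : ℝ) ≤ (H : ℝ) ^ k := one_le_pow₀ hHR
  have hVS : (V : ℝ) ≤ S * (H : ℝ) ^ (k - 1) := by
    rw [hV, hS]
    push_cast
    nlinarith
  have hWS : (W : ℝ) ≤ S * (H : ℝ) ^ k := by
    rw [hW, hS]
    push_cast
    nlinarith
  have hVH : (H : ℝ) ^ (k - 1) ≤ V := by
    rw [hV]
    push_cast
    nlinarith
  have hWH : (H : ℝ) ^ k ≤ W := by
    rw [hW]
    push_cast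
    nlinarith
  set U : ℕ := (M - N + H - 1) / H with hU
  have hU1 : M - N ≤ U * H := by
    rw [hU]
    have h4 := Nat.div_add_mod (M - N + H - 1) H
    have h5 := Nat.mod_lt (M - N + H - 1) (by omega : 0 < H)
    have h6 : H * ((M - N + H - 1) / H) = (M - N + H - 1) / H * H := Nat.mul_comm _ _
    omega
  have hU2 : U * H ≤ 2 * N := by
    rw [hU]
    have h4 := Nat.div_mul_le_self (M - N + H - 1) H
    omega
  refine (two_dim (Ioc N M) (fun n => cz t n (k - 1)) (fun n => cz t n k) b hb V W hV1 hW1).trans ?_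
  -- one point
  have g1 : ∀ n ∈ Ioc N M, ∑ m ∈ Ioc N M, FK (2 * V) (cz t n (k - 1) - cz t m (k - 1)) * FK (2 * W) (cz t n k - cz t m k) ≤
      ∑ u ∈ range U, C1 * V * W * wt W (cz t n k - cz t (N + 1 + u * H) k) * (1 + RR k V H (cz t (N + 1 + u * H) k)) := by
    intro n _
    rw [kk_Ioc (fun m => FK (2 * V) (cz t n (k - 1) - cz t m (k - 1)) * FK (2 * W) (cz t n k - cz t m k))]
    refine (kk_blocks (fun q => FK (2 * V) (cz t n (k - 1) - cz t (N + 1 + q) (k - 1)) * FK (2 * W) (cz t n k - cz t (N + 1 + q) k))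
      (fun q => mul_nonneg (FK_nonneg _ _) (FK_nonneg _ _)) H U (M - N) hU1).trans ?_
    refine sum_le_sum fun u _ => ?_
    have := h1 N (N + 1 + u * H) H V W t (cz t n (k - 1)) (cz t n k) hN (by omega) hH ht ht1 hV1 hW1 hVS hWS
    refine le_trans (le_of_eq ?_) this
    refine sum_congr rfl fun r _ => ?_
    rw [← add_assoc]
  have g2 : ∑ n ∈ Ioc N M, ∑ m ∈ Ioc N M, FK (2 * V) (cz t n (k - 1) - cz t m (k - 1)) * FK (2 * W) (cz t n k - cz t m k) ≤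
      C1 * V * W * ∑ u ∈ range U, (1 + (RR k V H (cz t (N + 1 + u * H) k) : ℝ)) * (C2 * (1 + t / (N : ℝ) ^ k) * H) := by
    refine (sum_le_sum g1).trans ?_
    rw [sum_comm, mul_sum]
    refine sum_le_sum fun u _ => ?_
    have h4 := h2 N M H W t (cz t (N + 1 + u * H) k) hN hM hH ht ht2 hWH
    have h5 : ∑ n ∈ Ioc N M, C1 * V * W * wt W (cz t n k - cz t (N + 1 + u * H) k) * (1 + (RR k V H (cz t (N + 1 + u * H) k) : ℝ)) =
        C1 * V * W * ((1 + (RR k V H (cz t (N + 1 + u * H) k) : ℝ)) * ∑ n ∈ Ioc N M, wt W (cz t n k - cz t (N + 1 + u * H) k)) := by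
      rw [mul_sum, mul_sum]
      exact sum_congr rfl fun n _ => by ring
    rw [h5]
    refine mul_le_mul_of_nonneg_left (mul_le_mul_of_nonneg_left h4 (by positivity)) (by positivity)
  have g3 := h3 N U H V t hN hH hU2 ht ht2 hVH
  have hN0 : (0 : ℝ) < N := by linarith
  set τ : ℝ := t / (N : ℝ) ^ k with hτ
  have hτ0 : 0 ≤ τ := by positivity
  have g4 : ∑ u ∈ range U, (1 + (RR k V H (cz t (N + 1 + u * H) k) : ℝ)) * (C2 * (1 + τ) * H) ≤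
      C2 * ((1 + τ) * (U * H + C3 * ((H : ℝ) ^ 2 * (1 + Real.log H) + (H : ℝ) ^ 3 * τ))) := by
    rw [← sum_mul, sum_add_distrib, sum_const, card_range, nsmul_eq_mul, mul_one]
    have h4 : ((U : ℝ) + ∑ u ∈ range U, (RR k V H (cz t (N + 1 + u * H) k) : ℝ)) * (C2 * (1 + τ) * H) ≤
        ((U : ℝ) + C3 * (H * (1 + Real.log H) + (H : ℝ) ^ 2 * τ)) * (C2 * (1 + τ) * H) :=
      mul_le_mul_of_nonneg_right (by linarith) (by positivity)
    refine h4.trans (le_of_eq ?_)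
    ring
  have hT : τ * N = t / (N : ℝ) ^ (k - 1) := by
    rw [hτ]
    have h4 : (N : ℝ) ^ k = (N : ℝ) ^ (k - 1) * N := by
      rw [← pow_succ]
      congr 1
      omega
    rw [h4]
    field_simp
  have hH3 : (H : ℝ) ^ 3 * τ ≤ N := by
    have h4 : (H : ℝ) ^ 3 ≤ (H : ℝ) ^ (k + 1) := pow_le_pow_right₀ hHR (by omega)
    have h5 : t * (H : ℝ) ^ 3 ≤ (N : ℝ) ^ (k + 1) := (mul_le_mul_of_nonneg_left h4 ht.le).trans ht1
    rw [hτ, mul_div_assoc', div_le_iff₀ (by positivity)]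
    calc (H : ℝ) ^ 3 * t = t * (H : ℝ) ^ 3 := by ring
      _ ≤ (N : ℝ) ^ (k + 1) := h5
      _ = N * (N : ℝ) ^ k := by rw [pow_succ]; ring
  have hUHR : (U : ℝ) * H ≤ 2 * N := by exact_mod_cast hU2
  have hlH : 0 ≤ Real.log H := Real.log_nonneg hHR
  have hlHN : Real.log H ≤ Real.log N := Real.log_le_log (by linarith) hHNR
  have g5 := kk_num hτ0 hNR hHR hC3 hlH hlHN hH3 hUHR hT
  have hVW : (V : ℝ) * W ≤ S ^ 2 * (H : ℝ) ^ (2 * k - 1) := by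
    calc (V : ℝ) * W ≤ (S * (H : ℝ) ^ (k - 1)) * (S * (H : ℝ) ^ k) := mul_le_mul hVS hWS (by positivity) (by positivity)
      _ = S ^ 2 * (H : ℝ) ^ (2 * k - 1) := by
          have h4 : 2 * k - 1 = (k - 1) + k := by omega
          rw [h4, pow_add]
          ring
  have hR0 : 0 ≤ 2 * (2 + C3) * ((N : ℝ) + t / (N : ℝ) ^ (k - 1) + (H : ℝ) ^ 2) * (1 + Real.log N) := by
    have : 0 ≤ Real.log N := by linarith
    positivity
  calc 4 * ∑ n ∈ Ioc N M, ∑ m ∈ Ioc N M, FK (2 * V) (cz t n (k - 1) - cz t m (k - 1)) * FK (2 * W) (cz t n k - cz t m k)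
      ≤ 4 * (C1 * V * W * (C2 * (2 * (2 + C3) * ((N : ℝ) + t / (N : ℝ) ^ (k - 1) + (H : ℝ) ^ 2) * (1 + Real.log N)))) := by
        refine mul_le_mul_of_nonneg_left (g2.trans ?_) (by norm_num)
        refine mul_le_mul_of_nonneg_left (g4.trans ?_) (by positivity)
        exact mul_le_mul_of_nonneg_left g5 hC2
    _ = 4 * C1 * C2 * (V * W) * (2 * (2 + C3) * ((N : ℝ) + t / (N : ℝ) ^ (k - 1) + (H : ℝ) ^ 2) * (1 + Real.log N)) := by ring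
    _ ≤ 4 * C1 * C2 * (S ^ 2 * (H : ℝ) ^ (2 * k - 1)) * (2 * (2 + C3) * ((N : ℝ) + t / (N : ℝ) ^ (k - 1) + (H : ℝ) ^ 2) * (1 + Real.log N)) := by
        refine mul_le_mul_of_nonneg_right ?_ hR0
        exact mul_le_mul_of_nonneg_left hVW (by positivity)
    _ = 4 * C1 * C2 * (2 * (2 + C3)) * S ^ 2 * (H : ℝ) ^ (2 * k - 1) * ((N : ℝ) + t / (N : ℝ) ^ (k - 1) + (H : ℝ) ^ 2) * (1 + Real.log N) := by
        ring

end Pool.Agent.Lib.HB
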