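import Pool.Agent.Lib.HB.Defs

/-!
# HB / KT (150 lines): the two-dimensional kernel inequality

PROOF.  `G(v, w) = ∑_{n ∈ A} b n e(x n v + y n w)` for INTEGERS `v, w`, `P = 2V`, `Q = 2W`.  For every `0 ≤ v < V` there are `P - v ≥ V` pairs
`(i, i')` in `[0, P)^2` with `i - i' = v` (`i' < V`, `i = i' + v < 2V`), and the same for `w`; so (all terms are `≥ 0`; the map
`(v, w, i', j') ↦ (i' + v, i', j' + w, j')` is injective)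
`V W ∑_{v<V} ∑_{w<W} ‖G(v,w)‖^2 ≤ ∑_{i,i'<P} ∑_{j,j'<Q} ‖G(i-i', j-j')‖^2`.
Expand: `‖G(v,w)‖^2 = ∑_{n,m} b n conj(b m) e((x n - x m) v + (y n - y m) w)` (`e_sub`, `e_conj`), and the sum over `i, i', j, j'` of
`e((x n - x m)(i - i')) e((y n - y m)(j - j'))` is `‖∑_{i<P} e(i (x n - x m))‖^2 ‖∑_{j<Q} e(j (y n - y m))‖^2 = P Q FK P (..) FK Q (..)`.
Norms (`‖b n‖ ≤ 1`): `V W ∑∑ ‖G‖^2 ≤ P Q ∑_{n,m} FK P FK Q`, and `P Q = 4 V W`.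
-/

set_option autoImplicit false

namespace Pool.Agent.Lib.HB

open Finset Pool.Agent.Lib.ZB

/-- one dimension: every difference `0 ≤ v < V` occurs at least `V` times -/
private theorem kt_diff (V : ℕ) (f : ℤ → ℝ) (hf : ∀ z, 0 ≤ f z) :
    (V : ℝ) * ∑ v ∈ range V, f (v : ℤ) ≤ ∑ i ∈ range (2 * V), ∑ i' ∈ range (2 * V), f ((i : ℤ) - (i' : ℤ)) := by
  rw [sum_comm]
  have h1 : ∀ i' ∈ range V, ∑ v ∈ range V, f (v : ℤ) ≤ ∑ i ∈ range (2 * V), f ((i : ℤ) - (i' : ℤ)) := by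
    intro i' hi'
    rw [mem_range] at hi'
    have h2 : ∑ v ∈ range V, f (v : ℤ) = ∑ i ∈ Ico i' (i' + V), f ((i : ℤ) - (i' : ℤ)) := by
      rw [sum_Ico_eq_sum_range, Nat.add_sub_cancel_left]
      refine sum_congr rfl fun v _ => ?_
      congr 1
      push_cast
      ring
    rw [h2]
    refine sum_le_sum_of_subset_of_nonneg ?_ fun i _ _ => hf _
    intro i hi
    rw [mem_Ico] at hi
    rw [mem_range]
    omega
  calc (V : ℝ) * ∑ v ∈ range V, f (v : ℤ) = ∑ i' ∈ range V, ∑ v ∈ range V, f (v : ℤ) := by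
        rw [sum_const, card_range, nsmul_eq_mul]
    _ ≤ ∑ i' ∈ range V, ∑ i ∈ range (2 * V), f ((i : ℤ) - (i' : ℤ)) := sum_le_sum h1
    _ ≤ ∑ i' ∈ range (2 * V), ∑ i ∈ range (2 * V), f ((i : ℤ) - (i' : ℤ)) := by
        refine sum_le_sum_of_subset_of_nonneg ?_ fun i _ _ => sum_nonneg fun j _ => hf _
        intro i hi
        rw [mem_range] at hi ⊢
        omega

private theorem kt_e (u u' : ℝ) (i i' j j' : ℕ) :
    e ((((i : ℤ) - (i' : ℤ) : ℤ) : ℝ) * u + (((j : ℤ) - (j' : ℤ) : ℤ) : ℝ) * u') =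
      (e ((i : ℝ) * u) * (starRingEnd ℂ) (e ((i' : ℝ) * u))) *
        (e ((j : ℝ) * u') * (starRingEnd ℂ) (e ((j' : ℝ) * u'))) := by
  rw [← e_sub, ← e_sub, ← e_add]
  congr 1
  push_cast
  ring

private theorem kt_sw {ι : Type*} (A : Finset ι) (P Q : ℕ) (F : ℕ → ℕ → ℕ → ℕ → ι → ℂ) :
    ∑ i ∈ range P, ∑ i' ∈ range P, ∑ j ∈ range Q, ∑ j' ∈ range Q, ∑ n ∈ A, F i i' j j' n =
      ∑ n ∈ A, ∑ i ∈ range P, ∑ i' ∈ range P, ∑ j ∈ range Q, ∑ j' ∈ range Q, F i i' j j' n := by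
  have h1 : ∀ i i' j, ∑ j' ∈ range Q, ∑ n ∈ A, F i i' j j' n = ∑ n ∈ A, ∑ j' ∈ range Q, F i i' j j' n :=
    fun _ _ _ => sum_comm
  have h2 : ∀ i i', ∑ j ∈ range Q, ∑ n ∈ A, ∑ j' ∈ range Q, F i i' j j' n =
      ∑ n ∈ A, ∑ j ∈ range Q, ∑ j' ∈ range Q, F i i' j j' n := fun _ _ => sum_comm
  have h3 : ∀ i, ∑ i' ∈ range P, ∑ n ∈ A, ∑ j ∈ range Q, ∑ j' ∈ range Q, F i i' j j' n =
      ∑ n ∈ A, ∑ i' ∈ range P, ∑ j ∈ range Q, ∑ j' ∈ range Q, F i i' j j' n := fun _ => sum_comm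
  calc ∑ i ∈ range P, ∑ i' ∈ range P, ∑ j ∈ range Q, ∑ j' ∈ range Q, ∑ n ∈ A, F i i' j j' n
      = ∑ i ∈ range P, ∑ i' ∈ range P, ∑ j ∈ range Q, ∑ n ∈ A, ∑ j' ∈ range Q, F i i' j j' n :=
        sum_congr rfl fun i _ => sum_congr rfl fun i' _ => sum_congr rfl fun j _ => h1 i i' j
    _ = ∑ i ∈ range P, ∑ i' ∈ range P, ∑ n ∈ A, ∑ j ∈ range Q, ∑ j' ∈ range Q, F i i' j j' n :=
        sum_congr rfl fun i _ => sum_congr rfl fun i' _ => h2 i i'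
    _ = ∑ i ∈ range P, ∑ n ∈ A, ∑ i' ∈ range P, ∑ j ∈ range Q, ∑ j' ∈ range Q, F i i' j j' n :=
        sum_congr rfl fun i _ => h3 i
    _ = _ := sum_comm

private theorem kt_key (P Q : ℕ) (u u' : ℝ) :
    ∑ i ∈ range P, ∑ i' ∈ range P, ∑ j ∈ range Q, ∑ j' ∈ range Q,
      e ((((i : ℤ) - (i' : ℤ) : ℤ) : ℝ) * u + (((j : ℤ) - (j' : ℤ) : ℤ) : ℝ) * u') =
    ((‖∑ i ∈ range P, e ((i : ℝ) * u)‖ ^ 2 * ‖∑ j ∈ range Q, e ((j : ℝ) * u')‖ ^ 2 : ℝ) : ℂ) := by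
  have h1 : ∀ (M : ℕ) (v : ℝ), ∑ i ∈ range M, ∑ i' ∈ range M, (e ((i : ℝ) * v) * (starRingEnd ℂ) (e ((i' : ℝ) * v))) =
      ((‖∑ i ∈ range M, e ((i : ℝ) * v)‖ ^ 2 : ℝ) : ℂ) := by
    intro M v
    rw [← sum_mul_sum, ← map_sum, Complex.mul_conj']
    push_cast
    rfl
  calc ∑ i ∈ range P, ∑ i' ∈ range P, ∑ j ∈ range Q, ∑ j' ∈ range Q,
        e ((((i : ℤ) - (i' : ℤ) : ℤ) : ℝ) * u + (((j : ℤ) - (j' : ℤ) : ℤ) : ℝ) * u')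
      = ∑ i ∈ range P, ∑ i' ∈ range P, (e ((i : ℝ) * u) * (starRingEnd ℂ) (e ((i' : ℝ) * u))) *
          ∑ j ∈ range Q, ∑ j' ∈ range Q, (e ((j : ℝ) * u') * (starRingEnd ℂ) (e ((j' : ℝ) * u'))) := by
        refine sum_congr rfl fun i _ => sum_congr rfl fun i' _ => ?_
        rw [mul_sum]
        refine sum_congr rfl fun j _ => ?_
        rw [mul_sum]
        exact sum_congr rfl fun j' _ => kt_e u u' i i' j j'
    _ = (∑ i ∈ range P, ∑ i' ∈ range P, (e ((i : ℝ) * u) * (starRingEnd ℂ) (e ((i' : ℝ) * u)))) *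
          ∑ j ∈ range Q, ∑ j' ∈ range Q, (e ((j : ℝ) * u') * (starRingEnd ℂ) (e ((j' : ℝ) * u'))) := by
        rw [sum_mul]
        exact sum_congr rfl fun i _ => (sum_mul _ _ _).symm
    _ = _ := by
        rw [h1, h1]
        push_cast
        rfl

private theorem kt_sq (A : Finset ℕ) (x y : ℕ → ℝ) (b : ℕ → ℂ) (v w : ℤ) :
    ((‖∑ n ∈ A, b n * e ((v : ℝ) * x n + (w : ℝ) * y n)‖ ^ 2 : ℝ) : ℂ) =
      ∑ n ∈ A, ∑ m ∈ A, (b n * (starRingEnd ℂ) (b m)) * e ((v : ℝ) * (x n - x m) + (w : ℝ) * (y n - y m)) := by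
  push_cast
  rw [← Complex.mul_conj', map_sum, sum_mul_sum]
  refine sum_congr rfl fun n _ => sum_congr rfl fun m _ => ?_
  rw [map_mul]
  have h1 : e ((v : ℝ) * (x n - x m) + (w : ℝ) * (y n - y m)) =
      e ((v : ℝ) * x n + (w : ℝ) * y n) * (starRingEnd ℂ) (e ((v : ℝ) * x m + (w : ℝ) * y m)) := by
    rw [← e_sub]
    congr 1
    ring
  rw [h1]
  ring

theorem two_dim (A : Finset ℕ) (x y : ℕ → ℝ) (b : ℕ → ℂ) (hb : ∀ n, ‖b n‖ ≤ 1) (V W : ℕ) (hV : 1 ≤ V) (hW : 1 ≤ W) :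
    ∑ v ∈ range V, ∑ w ∈ range W, ‖∑ n ∈ A, b n * e ((v : ℝ) * x n + (w : ℝ) * y n)‖ ^ 2 ≤
      4 * ∑ n ∈ A, ∑ m ∈ A, FK (2 * V) (x n - x m) * FK (2 * W) (y n - y m) := by
  obtain ⟨G, hG⟩ : ∃ G : ℤ → ℤ → ℝ, ∀ v w : ℤ, G v w = ‖∑ n ∈ A, b n * e ((v : ℝ) * x n + (w : ℝ) * y n)‖ ^ 2 :=
    ⟨fun v w => _, fun _ _ => rfl⟩
  have hG0 : ∀ v w, 0 ≤ G v w := fun v w => by
    rw [hG]
    positivity
  have hVR : (0 : ℝ) < V := by exact_mod_cast hV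
  have hWR : (0 : ℝ) < W := by exact_mod_cast hW
  -- lower bound
  have h1 : (V : ℝ) * (W * ∑ v ∈ range V, ∑ w ∈ range W, G v w) ≤
      ∑ i ∈ range (2 * V), ∑ i' ∈ range (2 * V), ∑ j ∈ range (2 * W), ∑ j' ∈ range (2 * W),
        G ((i : ℤ) - (i' : ℤ)) ((j : ℤ) - (j' : ℤ)) := by
    rw [mul_sum]
    refine (kt_diff V (fun v => (W : ℝ) * ∑ w ∈ range W, G v w) fun z =>
      mul_nonneg hWR.le (sum_nonneg fun w _ => hG0 _ _)).trans ?_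
    exact sum_le_sum fun i _ => sum_le_sum fun i' _ => kt_diff W (fun w => G ((i : ℤ) - (i' : ℤ)) w) fun z => hG0 _ _
  -- expansion
  have h2 : ((∑ i ∈ range (2 * V), ∑ i' ∈ range (2 * V), ∑ j ∈ range (2 * W), ∑ j' ∈ range (2 * W),
        G ((i : ℤ) - (i' : ℤ)) ((j : ℤ) - (j' : ℤ)) : ℝ) : ℂ) =
      ∑ n ∈ A, ∑ m ∈ A, (b n * (starRingEnd ℂ) (b m)) *
        ((‖∑ i ∈ range (2 * V), e ((i : ℝ) * (x n - x m))‖ ^ 2 * ‖∑ j ∈ range (2 * W), e ((j : ℝ) * (y n - y m))‖ ^ 2 : ℝ) : ℂ) := by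
    simp only [Complex.ofReal_sum, hG, kt_sq]
    rw [kt_sw]
    refine sum_congr rfl fun n _ => ?_
    rw [kt_sw]
    refine sum_congr rfl fun m _ => ?_
    rw [← kt_key]
    simp only [mul_sum]
  have h3 : ∑ i ∈ range (2 * V), ∑ i' ∈ range (2 * V), ∑ j ∈ range (2 * W), ∑ j' ∈ range (2 * W),
        G ((i : ℤ) - (i' : ℤ)) ((j : ℤ) - (j' : ℤ)) ≤
      ∑ n ∈ A, ∑ m ∈ A, ‖∑ i ∈ range (2 * V), e ((i : ℝ) * (x n - x m))‖ ^ 2 * ‖∑ j ∈ range (2 * W), e ((j : ℝ) * (y n - y m))‖ ^ 2 := by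
    have h4 : ∑ i ∈ range (2 * V), ∑ i' ∈ range (2 * V), ∑ j ∈ range (2 * W), ∑ j' ∈ range (2 * W),
        G ((i : ℤ) - (i' : ℤ)) ((j : ℤ) - (j' : ℤ)) ≤ ‖((∑ i ∈ range (2 * V), ∑ i' ∈ range (2 * V), ∑ j ∈ range (2 * W),
          ∑ j' ∈ range (2 * W), G ((i : ℤ) - (i' : ℤ)) ((j : ℤ) - (j' : ℤ)) : ℝ) : ℂ)‖ := by
      rw [Complex.norm_real]
      exact le_abs_self _
    refine h4.trans ?_
    rw [h2]
    refine (norm_sum_le _ _).trans (sum_le_sum fun n _ => (norm_sum_le _ _).trans (sum_le_sum fun m _ => ?_))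
    rw [norm_mul, norm_mul, Complex.norm_real, RCLike.norm_conj]
    have h5 : 0 ≤ ‖∑ i ∈ range (2 * V), e ((i : ℝ) * (x n - x m))‖ ^ 2 * ‖∑ j ∈ range (2 * W), e ((j : ℝ) * (y n - y m))‖ ^ 2 := by
      positivity
    rw [Real.norm_of_nonneg h5]
    have h6 : ‖b n‖ * ‖b m‖ ≤ 1 := mul_le_one₀ (hb n) (norm_nonneg _) (hb m)
    calc ‖b n‖ * ‖b m‖ * _ ≤ 1 * _ := mul_le_mul_of_nonneg_right h6 h5
      _ = _ := one_mul _
  have h4 : ∑ n ∈ A, ∑ m ∈ A, ‖∑ i ∈ range (2 * V), e ((i : ℝ) * (x n - x m))‖ ^ 2 * ‖∑ j ∈ range (2 * W), e ((j : ℝ) * (y n - y m))‖ ^ 2 =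
      (V * W : ℝ) * (4 * ∑ n ∈ A, ∑ m ∈ A, FK (2 * V) (x n - x m) * FK (2 * W) (y n - y m)) := by
    rw [mul_sum, mul_sum]
    refine sum_congr rfl fun n _ => ?_
    rw [mul_sum, mul_sum]
    refine sum_congr rfl fun m _ => ?_
    unfold FK
    generalize ‖∑ i ∈ range (2 * V), e ((i : ℝ) * (x n - x m))‖ ^ 2 = X
    generalize ‖∑ j ∈ range (2 * W), e ((j : ℝ) * (y n - y m))‖ ^ 2 = Y
    push_cast
    field_simp
    ring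
  have h5 := h1.trans (h3.trans_eq h4)
  have h6 : ∑ v ∈ range V, ∑ w ∈ range W, ‖∑ n ∈ A, b n * e ((v : ℝ) * x n + (w : ℝ) * y n)‖ ^ 2 =
      ∑ v ∈ range V, ∑ w ∈ range W, G v w := by
    refine sum_congr rfl fun v _ => sum_congr rfl fun w _ => ?_
    rw [hG]
    push_cast
    rfl
  rw [h6]
  rw [← mul_assoc] at h5
  exact le_of_mul_le_mul_left h5 (by positivity)

end Pool.Agent.Lib.HB
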