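import Pool.Agent.Lib.HB.Defs

/-!
# HB / XG (130 lines): grouping and Cauchy-Schwarz, abstract form

PROOF.  `G p i j = ∑_{n ∈ I} δ n e(α n p) e(i x n + j y n)`.  Exchange: the sum inside the norm is `∑_x v x G (κ x) (m1 x) (m2 x)`.  Group the `x` by the triple
`(κ x, m1 x, m2 x) = (p, i, j)`: it is `∑_{(p,i,j)} a(p,i,j) G p i j` with `‖a(p,i,j)‖ ≤ r(p,i,j) = #{x : (κ x, m1 x, m2 x) = (p,i,j)}`, all triples in
`P × [0,V) × [0,W)`, `P = univ.image κ`.  Cauchy-Schwarz: `‖·‖^2 ≤ (∑ r^2) (∑_{p ∈ P} ∑_{i<V} ∑_{j<W} ‖G p i j‖^2)`; `∑ r^2` is the number of pairs of the claim and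
for every `p` the inner double sum is `≤ B` (`hB` with `b n = δ n e(α n p)`).
-/

set_option autoImplicit false

namespace Pool.Agent.Lib.HB

open Finset Pool.Agent.Lib.ZB

private theorem XG_pairs {X K : Type} [Fintype X] [DecidableEq K] (τ : X → K) (T : Finset K) (hT : ∀ z, τ z ∈ T) :
    ∑ q ∈ T, ((univ.filter (fun z => τ z = q)).card : ℝ) ^ 2 =
      ((univ.filter fun p : X × X => τ p.1 = τ p.2).card : ℝ) := by
  have h1 : (univ.filter fun p : X × X => τ p.1 = τ p.2).card =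
      ∑ q ∈ T, ((univ.filter fun p : X × X => τ p.1 = τ p.2).filter fun p => τ p.1 = q).card := by
    refine card_eq_sum_card_fiberwise fun p _ => ?_
    exact mem_coe.mpr (hT p.1)
  rw [h1, Nat.cast_sum]
  refine sum_congr rfl fun q _ => ?_
  have h2 : ((univ.filter fun r : X × X => τ r.1 = τ r.2).filter fun r => τ r.1 = q) =
      (univ.filter (fun z => τ z = q)) ×ˢ (univ.filter (fun z => τ z = q)) := by
    ext r
    simp only [mem_filter, mem_univ, true_and, mem_product]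
    constructor
    · rintro ⟨h3, h4⟩
      exact ⟨h4, h3 ▸ h4⟩
    · rintro ⟨h3, h4⟩
      exact ⟨h3.trans h4.symm, h3⟩
  rw [h2, card_product]
  push_cast
  ring

open Classical in
theorem groupH {X K : Type} [Fintype X] (κ : X → K) (m1 m2 : X → ℕ) (v : X → ℂ) (hv : ∀ x, ‖v x‖ ≤ 1) (V W : ℕ)
    (h1 : ∀ x, m1 x < V) (h2 : ∀ x, m2 x < W) (I : Finset ℕ) (α : ℕ → K → ℝ) (x y : ℕ → ℝ) (δ : ℕ → ℂ)
    (hδ : ∀ n, ‖δ n‖ ≤ 1) (B : ℝ) (hB0 : 0 ≤ B)
    (hB : ∀ b : ℕ → ℂ, (∀ n, ‖b n‖ ≤ 1) →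
      ∑ i ∈ range V, ∑ j ∈ range W, ‖∑ n ∈ I, b n * e ((i : ℝ) * x n + (j : ℝ) * y n)‖ ^ 2 ≤ B) :
    ‖∑ n ∈ I, δ n * ∑ z, v z * (e (α n (κ z)) * e ((m1 z : ℝ) * x n + (m2 z : ℝ) * y n))‖ ^ 2 ≤
      B * ((univ.image κ).card : ℝ) *
        ((univ.filter fun p : X × X => κ p.1 = κ p.2 ∧ m1 p.1 = m1 p.2 ∧ m2 p.1 = m2 p.2).card : ℝ) := by
  obtain ⟨T, hT⟩ : ∃ T : Finset (K × ℕ × ℕ), T = (univ.image κ) ×ˢ (range V ×ˢ range W) := ⟨_, rfl⟩
  obtain ⟨τ, hτ⟩ : ∃ τ : X → K × ℕ × ℕ, τ = fun z => (κ z, m1 z, m2 z) := ⟨_, rfl⟩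
  obtain ⟨G, hG⟩ : ∃ G : K × ℕ × ℕ → ℂ, G = fun q =>
    ∑ n ∈ I, (δ n * e (α n q.1)) * e ((q.2.1 : ℝ) * x n + (q.2.2 : ℝ) * y n) := ⟨_, rfl⟩
  have hmaps : ∀ z, τ z ∈ T := by
    intro z
    rw [hT, hτ]
    exact mem_product.mpr ⟨mem_image_of_mem κ (mem_univ z),
      mem_product.mpr ⟨mem_range.mpr (h1 z), mem_range.mpr (h2 z)⟩⟩
  have hsplit : ∑ n ∈ I, δ n * ∑ z, v z * (e (α n (κ z)) * e ((m1 z : ℝ) * x n + (m2 z : ℝ) * y n)) =
      ∑ q ∈ T, (∑ z ∈ univ.filter (fun z => τ z = q), v z) * G q := by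
    calc ∑ n ∈ I, δ n * ∑ z, v z * (e (α n (κ z)) * e ((m1 z : ℝ) * x n + (m2 z : ℝ) * y n))
        = ∑ z, v z * G (τ z) := by
          simp only [mul_sum]
          rw [sum_comm]
          refine sum_congr rfl fun z _ => ?_
          rw [hG, hτ]
          simp only [mul_sum]
          refine sum_congr rfl fun n _ => ?_
          ring
      _ = ∑ q ∈ T, ∑ z ∈ univ.filter (fun z => τ z = q), v z * G (τ z) :=
          (sum_fiberwise_of_maps_to (fun z _ => hmaps z) _).symm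
      _ = _ := by
          refine sum_congr rfl fun q _ => ?_
          rw [sum_mul]
          refine sum_congr rfl fun z hz => ?_
          rw [(mem_filter.mp hz).2]
  have hnorm : ∀ q, ‖∑ z ∈ univ.filter (fun z => τ z = q), v z‖ ≤
      ((univ.filter (fun z => τ z = q)).card : ℝ) := by
    intro q
    refine (norm_sum_le _ _).trans ?_
    refine (sum_le_sum fun z _ => hv z).trans ?_
    rw [sum_const, nsmul_eq_mul, mul_one]
  have hcs : ‖∑ q ∈ T, (∑ z ∈ univ.filter (fun z => τ z = q), v z) * G q‖ ^ 2 ≤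
      (∑ q ∈ T, ((univ.filter (fun z => τ z = q)).card : ℝ) ^ 2) * ∑ q ∈ T, ‖G q‖ ^ 2 := by
    have h3 : ‖∑ q ∈ T, (∑ z ∈ univ.filter (fun z => τ z = q), v z) * G q‖ ≤
        ∑ q ∈ T, ((univ.filter (fun z => τ z = q)).card : ℝ) * ‖G q‖ := by
      refine (norm_sum_le _ _).trans (sum_le_sum fun q _ => ?_)
      rw [norm_mul]
      exact mul_le_mul_of_nonneg_right (hnorm q) (norm_nonneg _)
    exact (pow_le_pow_left₀ (norm_nonneg _) h3 2).trans (sum_mul_sq_le_sq_mul_sq _ _ _)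
  have hGB : ∑ q ∈ T, ‖G q‖ ^ 2 ≤ ((univ.image κ).card : ℝ) * B := by
    rw [hT, sum_product]
    calc ∑ p ∈ univ.image κ, ∑ ij ∈ range V ×ˢ range W, ‖G (p, ij)‖ ^ 2
        ≤ ∑ _p ∈ univ.image κ, B := by
          refine sum_le_sum fun p _ => ?_
          rw [sum_product]
          have h4 := hB (fun n => δ n * e (α n p)) (fun n => by
            rw [norm_mul, norm_e, mul_one]
            exact hδ n)
          refine le_trans (le_of_eq ?_) h4
          refine sum_congr rfl fun i _ => sum_congr rfl fun j _ => ?_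
          rw [hG]
      _ = _ := by rw [sum_const, nsmul_eq_mul]
  have hpairs : (∑ q ∈ T, ((univ.filter (fun z => τ z = q)).card : ℝ) ^ 2) =
      ((univ.filter fun p : X × X => κ p.1 = κ p.2 ∧ m1 p.1 = m1 p.2 ∧ m2 p.1 = m2 p.2).card : ℝ) := by
    rw [XG_pairs τ T hmaps]
    congr 2
    ext p
    simp only [mem_filter, mem_univ, true_and, hτ, Prod.mk.injEq]
  rw [hsplit]
  refine hcs.trans ?_
  rw [hpairs]
  calc _ ≤ ((univ.filter fun p : X × X => κ p.1 = κ p.2 ∧ m1 p.1 = m1 p.2 ∧ m2 p.1 = m2 p.2).card : ℝ) *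
        (((univ.image κ).card : ℝ) * B) := mul_le_mul_of_nonneg_left hGB (Nat.cast_nonneg _)
    _ = _ := by ring

end Pool.Agent.Lib.HB
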